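import Mathlib

/-! The `ℚ`-space of logarithms of algebraic numbers, trivial polynomials. -/

open Polynomial

namespace MP60829e.SE

/-- The `ℚ`-space of all logarithms of (nonzero) algebraic numbers. -/
noncomputable def Lg : Submodule ℚ ℂ where
  carrier := {z | IsAlgebraic ℚ (Complex.exp z)}
  add_mem' := by
    intro a b ha hb
    simp only [Set.mem_ofPred_eq] at *
    rw [Complex.exp_add]
    exact ha.mul hb
  zero_mem' := by
    simp only [Set.mem_ofPred_eq, Complex.exp_zero]
    exact isAlgebraic_one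
  smul_mem' := by
    intro q z hz
    simp only [Set.mem_ofPred_eq] at *
    have h1 : (Complex.exp (q • z)) ^ q.den = Complex.exp z ^ q.num := by
      rw [← Complex.exp_nat_mul, ← Complex.exp_int_mul]
      congr 1
      rw [Rat.smul_def]
      have h2 : ((q.den : ℂ)) * (q : ℂ) = q.num := by
        exact_mod_cast Rat.den_mul_eq_num q
      rw [← mul_assoc, h2]
    have h3 : IsAlgebraic ℚ (Complex.exp z ^ q.num) := by
      rcases q.num with n | n
      · simpa using hz.pow n
      · rw [zpow_negSucc]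
        exact (hz.pow _).inv
    rw [← h1] at h3
    exact IsAlgebraic.of_pow q.den_pos h3

theorem mem_Lg {z : ℂ} : z ∈ Lg ↔ IsAlgebraic ℚ (Complex.exp z) := Iff.rfl

/-- The class of a complex number modulo `Lg`. -/
noncomputable abbrev cl : ℂ →ₗ[ℚ] ℂ ⧸ Lg := Lg.mkQ

theorem cl_eq_zero {z : ℂ} : cl z = 0 ↔ z ∈ Lg := by
  rw [Submodule.mkQ_apply, Submodule.Quotient.mk_eq_zero]

theorem log_mem_Lg (b : ℕ) : ((Real.log b : ℝ) : ℂ) ∈ Lg := by
  rw [mem_Lg, ← Complex.ofReal_exp]
  rcases Nat.eq_zero_or_pos b with h | h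
  · subst h
    simp only [Nat.cast_zero, Real.log_zero, Real.exp_zero, Complex.ofReal_one]
    exact isAlgebraic_one
  · rw [Real.exp_log (by exact_mod_cast h)]
    exact_mod_cast isAlgebraic_natCast b

/-- Polynomials `a + r X` with `r` rational. -/
def Triv (f : ℂ[X]) : Prop := ∃ (a : ℂ) (r : ℚ), f = C a + C (r : ℂ) * X

theorem rat_smul (q : ℚ) (f : ℂ[X]) : q • f = C (q : ℂ) * f := by
  rw [Algebra.smul_def]
  rfl

/-- `ℚ`-space of the trivial polynomials. -/
noncomputable def TrivSub : Submodule ℚ ℂ[X] where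
  carrier := {f | Triv f}
  add_mem' := by
    rintro f g ⟨a, r, rfl⟩ ⟨b, s, rfl⟩
    refine ⟨a + b, r + s, ?_⟩
    push_cast
    rw [C_add, C_add]
    ring
  zero_mem' := ⟨0, 0, by simp⟩
  smul_mem' := by
    rintro q f ⟨a, r, rfl⟩
    refine ⟨q * a, q * r, ?_⟩
    rw [rat_smul]
    push_cast
    rw [C_mul, C_mul]
    ring

theorem mem_TrivSub {f : ℂ[X]} : f ∈ TrivSub ↔ Triv f := Iff.rfl

/-- The bad integers for a space `V` of polynomials in one variable. -/
def Bad (V : Submodule ℚ ℂ[X]) : Set ℕ :=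
  {b | ∃ f ∈ V, f.eval ((Real.log b : ℝ) : ℂ) ∈ Lg ∧ ¬ Triv f}

end MP60829e.SE
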