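import Mathlib
import Pool.Agent.Lib.MP_60829e_nt.Rate.Final

/-! Counting the elements of a set of integers without boxes of prime factors. -/

open Finset

namespace MP60829e.SE

open MP60829e.Rate

/-- PROOF: `typical` with `s = blk r t (log B)` and `blk_density`, `few_bound`; see the proof of
`abs_bound` in AC/Final.lean (parts `htyp` and `hH3`, case `k ≠ 0`). -/
theorem count_gridFree (r t : ℕ) (hr : 1 ≤ r) (ht : 2 ≤ t) : ∃ C : ℕ, ∀ X : Set ℕ,
    GridFree r t X → ∀ B : ℕ, 16 ≤ B →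
      ({b : ℕ | 1 ≤ b ∧ b ≤ B ∧ b ∈ X}.ncard : ℝ) ≤
        C * Real.log (Real.log B) ^ C / Real.log B * B := by
  classical
  refine ⟨(100000 * t) ^ r + 4 + r, ?_⟩
  intro X hX B hB
  have hL := log_ge B hB
  have hl := loglog_ge B hB
  have he := Real.exp_one_gt_d9
  set L := Real.log B with hLdef
  set l := Real.log L with hldef
  have hL2 : 2 ≤ L := by linarith
  have hL0 : 0 < L := by linarith
  have hB0 : (0 : ℝ) < B := by exact_mod_cast (by omega : 0 < B)
  set s := blk r t L with hs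
  have hs2 : 2 ≤ s := blk_two_le r t L ht (by linarith)
  set A : ℝ := 100000 * t * l with hA
  have ht2' : (2 : ℝ) ≤ t := by exact_mod_cast ht
  have hA1 : 1 ≤ A := by
    rw [hA]; nlinarith
  set τ : ℝ := 2 / (1 + L) ^ 2 with hτ
  set ν : ℝ := A ^ r / L with hν
  have hfew : ((Sm s r B).card : ℝ) ≤ B * ν := few_bound r t B ht hr hB
  set S : Finset ℕ := (Icc 1 B).filter (fun b => b ∈ X) with hS
  have hset : {b : ℕ | 1 ≤ b ∧ b ≤ B ∧ b ∈ X} = (S : Set ℕ) := by
    ext b
    rw [hS, Finset.mem_coe, mem_filter, mem_Icc]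
    exact (and_assoc).symm
  have htyp : ((S.filter (fun b => r ≤ om s b)).card : ℝ) ≤ B * τ := by
    have h1 := typical r t s B (by omega) X hX
      (2 / (1 + L) ^ (r + 2)) (by positivity) (fun T hT => blk_density r t L ht (by linarith) T hT)
    have h2 : ((S.filter (fun b => r ≤ om s b)).card : ℝ) ≤
        (((Icc 1 B).filter (fun b => b ∈ X ∧ r ≤ om s b)).card : ℝ) := by
      rw [hS, Finset.filter_filter]
    refine (h2.trans h1).trans (le_of_eq ?_)
    rw [← hLdef, hτ, pow_add]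
    have : (1 + L) ≠ 0 := by positivity
    field_simp
  have hτL : τ ≤ 4 / L := by
    rw [hτ, div_le_div_iff₀ (by positivity) hL0]
    nlinarith
  have h2 : (S.card : ℝ) ≤ ((S.filter (fun b => r ≤ om s b)).card : ℝ) + ((Sm s r B).card : ℝ) := by
    have h3 : S ⊆ (S.filter (fun b => r ≤ om s b)) ∪ (Sm s r B) := by
      intro b hb
      by_cases h4 : r ≤ om s b
      · exact mem_union_left _ (mem_filter.2 ⟨hb, h4⟩)
      · have hb' := (mem_filter.1 hb).1
        refine mem_union_right _ ?_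
        rw [Sm]
        exact mem_filter.2 ⟨hb', by omega⟩
    have h4 := (card_le_card h3).trans (card_union_le _ _)
    exact_mod_cast h4
  rw [hset, Set.ncard_coe_finset]
  have h3 : (S.card : ℝ) ≤ B * ((A ^ r + 4) / L) := by
    refine h2.trans ((add_le_add htyp hfew).trans ?_)
    rw [← mul_add]
    refine mul_le_mul_of_nonneg_left ?_ hB0.le
    rw [add_div, hν]
    linarith
  have h4 : A ^ r + 4 ≤ (((100000 * t) ^ r + 4 + r : ℕ) : ℝ) * l ^ ((100000 * t) ^ r + 4 + r) := by
    have h5 : (1 : ℝ) ≤ l ^ r := one_le_pow₀ hl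
    have h6 : l ^ r ≤ l ^ ((100000 * t) ^ r + 4 + r) := pow_le_pow_right₀ hl (Nat.le_add_left _ _)
    have h7 : A ^ r + 4 ≤ (((100000 * t) ^ r + 4 : ℕ) : ℝ) * l ^ r := by
      rw [hA, mul_pow]
      push_cast
      nlinarith
    have h8 : (((100000 * t) ^ r + 4 : ℕ) : ℝ) ≤ (((100000 * t) ^ r + 4 + r : ℕ) : ℝ) := by
      exact_mod_cast Nat.le_add_right _ _
    exact h7.trans (mul_le_mul h8 h6 (by positivity) (by positivity))
  refine h3.trans ?_
  rw [mul_comm (B : ℝ)]
  refine mul_le_mul_of_nonneg_right ?_ hB0.le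
  exact div_le_div_of_nonneg_right h4 hL0.le

end MP60829e.SE
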