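import Mathlib
import Pool.Agent.Lib.MP_60829e_nt.SE.Defs

/-! Adapted families of polynomials. -/

open Module Polynomial

namespace MP60829e.SE

/-- Data of an adapted family: `f s` of degree between `1` and `D`, the leading coefficients of the
members of a fixed degree `d` are `ℚ`-independent (modulo `ℚ` if `d = 1`), and `V` is spanned by the
`f s` and trivial polynomials. -/
structure Adapted (V : Submodule ℚ ℂ[X]) (D m : ℕ) (f : Fin m → ℂ[X]) : Prop where
  mem : ∀ s, f s ∈ V
  deg : ∀ s, 1 ≤ (f s).natDegree ∧ (f s).natDegree ≤ D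
  ind : ∀ q : Fin m → ℚ, ∀ d, 2 ≤ d →
    ∑ s ∈ Finset.univ.filter (fun s => (f s).natDegree = d), (q s : ℂ) * (f s).leadingCoeff = 0 →
    ∀ s, (f s).natDegree = d → q s = 0
  ind1 : ∀ (q : Fin m → ℚ) (r : ℚ),
    ∑ s ∈ Finset.univ.filter (fun s => (f s).natDegree = 1), (q s : ℂ) * (f s).leadingCoeff = r →
    ∀ s, (f s).natDegree = 1 → q s = 0
  span : ∀ g ∈ V, ∃ q : Fin m → ℚ, Triv (g - ∑ s, q s • f s)

/-- The target of the leading coefficient in degree `D + 1`: nothing for `D ≥ 1`, the rational
numbers for `D = 0`. -/
private noncomputable def RR (D : ℕ) : Submodule ℚ ℂ :=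
  if D = 0 then Submodule.span ℚ {1} else ⊥

private lemma mem_RR_zero {z : ℂ} : z ∈ RR 0 ↔ ∃ r : ℚ, (r : ℂ) = z := by
  rw [RR, if_pos rfl, Submodule.mem_span_singleton]
  constructor
  · rintro ⟨r, rfl⟩
    exact ⟨r, by rw [Rat.smul_def, mul_one]⟩
  · rintro ⟨r, rfl⟩
    exact ⟨r, by rw [Rat.smul_def, mul_one]⟩

private lemma mem_RR_pos {D : ℕ} (h : D ≠ 0) {z : ℂ} : z ∈ RR D ↔ z = 0 := by
  rw [RR, if_neg h, Submodule.mem_bot]

/-- The coefficient of `X ^ (D + 1)` modulo `RR D`. -/
private noncomputable def LL (D : ℕ) : ℂ[X] →ₗ[ℚ] ℂ ⧸ RR D :=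
  (RR D).mkQ ∘ₗ (Polynomial.lcoeff ℂ (D + 1)).restrictScalars ℚ

private lemma LL_eq_zero {D : ℕ} {g : ℂ[X]} : LL D g = 0 ↔ g.coeff (D + 1) ∈ RR D := by
  simp only [LL, LinearMap.comp_apply, LinearMap.restrictScalars_apply, lcoeff_apply,
    Submodule.mkQ_apply, Submodule.Quotient.mk_eq_zero]

private lemma natDegree_le_of_coeff {D : ℕ} {g : ℂ[X]} (h : g.natDegree ≤ D + 1)
    (h0 : g.coeff (D + 1) = 0) : g.natDegree ≤ D := by
  rw [natDegree_le_iff_coeff_eq_zero] at h ⊢
  intro N hN
  rcases Nat.lt_or_ge (D + 1) N with h1 | h1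
  · exact h N h1
  · have : N = D + 1 := by omega
    rw [this]
    exact h0

private lemma triv_of_natDegree_zero {g : ℂ[X]} (h : g.natDegree ≤ 0) : Triv g := by
  refine ⟨g.coeff 0, 0, ?_⟩
  rw [Rat.cast_zero, C_0, zero_mul, add_zero]
  exact eq_C_of_natDegree_le_zero h

private lemma triv_of_natDegree_one {g : ℂ[X]} (h : g.natDegree ≤ 1) {r : ℚ}
    (hr : (r : ℂ) = g.coeff 1) : Triv g := by
  refine ⟨g.coeff 0, r, ?_⟩
  rw [hr, add_comm]
  exact eq_X_add_C_of_natDegree_le_one h

private lemma adapted_zero (V : Submodule ℚ ℂ[X]) (hV : ∀ f ∈ V, f.natDegree ≤ 0) :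
    Adapted V 0 0 (fun s => s.elim0) where
  mem := fun s => s.elim0
  deg := fun s => s.elim0
  ind := fun _ _ _ _ s => s.elim0
  ind1 := fun _ _ _ s => s.elim0
  span := by
    intro g hg
    refine ⟨fun s => s.elim0, ?_⟩
    rw [Finset.univ_eq_empty, Finset.sum_empty, sub_zero]
    exact triv_of_natDegree_zero (hV g hg)

section step

variable {V : Submodule ℚ ℂ[X]} {D m k : ℕ} {f' : Fin m → ℂ[X]} {g : Fin k → ℂ[X]}

private lemma sum_append (q : Fin (m + k) → ℚ) (d : ℕ) :
    ∑ s ∈ Finset.univ.filter (fun s => (Fin.append f' g s).natDegree = d),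
      (q s : ℂ) * (Fin.append f' g s).leadingCoeff =
    ∑ s ∈ Finset.univ.filter (fun s => (f' s).natDegree = d),
      (q (Fin.castAdd k s) : ℂ) * (f' s).leadingCoeff +
    ∑ s ∈ Finset.univ.filter (fun s => (g s).natDegree = d),
      (q (Fin.natAdd m s) : ℂ) * (g s).leadingCoeff := by
  rw [Finset.sum_filter, Finset.sum_filter, Finset.sum_filter, Fin.sum_univ_add]
  simp only [Fin.append_left, Fin.append_right]

private lemma indep_of_basis (hlin : LinearIndependent ℚ (fun i => LL D (g i)))
    (hdeg : ∀ i, (g i).natDegree = D + 1) (q : Fin k → ℚ)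
    (h : ∑ i, (q i : ℂ) * (g i).leadingCoeff ∈ RR D) : ∀ i, q i = 0 := by
  have h1 : LL D (∑ i, q i • g i) = 0 := by
    rw [LL_eq_zero, finset_sum_coeff]
    convert h using 1
    refine Finset.sum_congr rfl fun i _ => ?_
    rw [rat_smul, coeff_C_mul, leadingCoeff, hdeg i]
  rw [map_sum] at h1
  simp only [map_smul] at h1
  exact fun i => Fintype.linearIndependent_iff.1 hlin q h1 i

end step

/-- PROOF by induction on `D`. `D = 0`: `m = 0`, all elements of `V` are constants. `D + 1`: let
`V' = {g ∈ V, natDegree g ≤ D}` with an adapted family `f'` of `m' ≤ D finrank V' ≤ D finrank V`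
members. Let `I` be the image of `V` under `g ↦ coeff g (D + 1)` (for `D ≥ 1`), resp. under
`g ↦ coeff g 1` modulo `ℚ` (for `D = 0`); `k = finrank I ≤ finrank V`; take `g_1 .. g_k ∈ V` whose
images are a basis of `I`. They have degree `D + 1` (their coefficient is non-zero). Take the family
`f', g` on `Fin (m' + k)` (`Fin.append`). For `g ∈ V` subtract a rational combination of the `g_i`
such that the coefficient of `X ^ (D + 1)` becomes `0` (`D ≥ 1`; then use `f'`), resp. rational
(`D = 0`; then the difference is trivial). -/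
theorem exists_adapted (D : ℕ) : ∀ (V : Submodule ℚ ℂ[X]) (_ : FiniteDimensional ℚ V)
    (_ : ∀ f ∈ V, f.natDegree ≤ D),
    ∃ (m : ℕ) (f : Fin m → ℂ[X]), m ≤ D * finrank ℚ V ∧ Adapted V D m f := by
  induction D with
  | zero =>
    intro V _ hV
    exact ⟨0, fun s => s.elim0, by simp, adapted_zero V hV⟩
  | succ D ih =>
    intro V hfin hV
    let V' : Submodule ℚ ℂ[X] := V ⊓ (Polynomial.degreeLE ℂ (D : WithBot ℕ)).restrictScalars ℚ
    have hmem' : ∀ {x : ℂ[X]}, x ∈ V' ↔ x ∈ V ∧ x.natDegree ≤ D := by
      intro x
      rw [Submodule.mem_inf, Submodule.restrictScalars_mem, mem_degreeLE,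
        natDegree_le_iff_degree_le]
    have hfin' : FiniteDimensional ℚ V' := Submodule.finiteDimensional_inf_left _ _
    obtain ⟨m, f', hm, hf'⟩ := ih V' hfin' (fun x hx => (hmem'.1 hx).2)
    have hV'V : finrank ℚ V' ≤ finrank ℚ V := Submodule.finrank_mono inf_le_left
    let I : Submodule ℚ (ℂ ⧸ RR D) := V.map (LL D)
    have hI : finrank ℚ I ≤ finrank ℚ V := Submodule.finrank_map_le _ _
    let b := Module.finBasis ℚ I
    have hb : ∀ i, ∃ x ∈ V, LL D x = (b i : ℂ ⧸ RR D) := fun i => (b i).2
    choose g hgV hgL using hb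
    have hlin : LinearIndependent ℚ (fun i => LL D (g i)) := by
      have h1 : LinearIndependent ℚ (fun i => ((b i : I) : ℂ ⧸ RR D)) :=
        b.linearIndependent.map' I.subtype (Submodule.ker_subtype _)
      have h2 : (fun i => LL D (g i)) = fun i => ((b i : I) : ℂ ⧸ RR D) := funext hgL
      rw [h2]
      exact h1
    have hdeg : ∀ i, (g i).natDegree = D + 1 := by
      intro i
      refine le_antisymm (hV _ (hgV i)) (le_natDegree_of_ne_zero ?_)
      intro h0
      have h1 : LL D (g i) ≠ 0 := hlin.ne_zero i
      apply h1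
      rw [LL_eq_zero, h0]
      exact Submodule.zero_mem _
    refine ⟨m + finrank ℚ I, Fin.append f' g, ?_, ?_⟩
    · calc m + finrank ℚ I ≤ D * finrank ℚ V + finrank ℚ V :=
            Nat.add_le_add (hm.trans (Nat.mul_le_mul_left D hV'V)) hI
        _ = (D + 1) * finrank ℚ V := by ring
    · constructor
      · intro s
        refine Fin.addCases (fun i => ?_) (fun i => ?_) s
        · rw [Fin.append_left]
          exact (hmem'.1 (hf'.mem i)).1
        · rw [Fin.append_right]
          exact hgV i
      · intro s
        refine Fin.addCases (fun i => ?_) (fun i => ?_) s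
        · rw [Fin.append_left]
          exact ⟨(hf'.deg i).1, (hf'.deg i).2.trans (Nat.le_succ D)⟩
        · rw [Fin.append_right, hdeg i]
          exact ⟨Nat.succ_le_succ (Nat.zero_le D), le_rfl⟩
      · intro q d hd hsum
        rw [sum_append] at hsum
        rcases eq_or_ne d (D + 1) with rfl | hne
        · have hD : D ≠ 0 := by omega
          have e1 : Finset.univ.filter (fun s => (f' s).natDegree = D + 1) = ∅ := by
            rw [Finset.filter_eq_empty_iff]
            intro s _ h
            have := (hf'.deg s).2
            omega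
          have e2 : Finset.univ.filter (fun s => (g s).natDegree = D + 1) = Finset.univ := by
            rw [Finset.filter_eq_self]
            exact fun s _ => hdeg s
          rw [e1, e2, Finset.sum_empty, zero_add] at hsum
          have h0 := indep_of_basis (D := D) hlin hdeg (fun i => q (Fin.natAdd m i))
            (by rw [hsum]; exact Submodule.zero_mem _)
          intro s
          refine Fin.addCases (fun i => ?_) (fun i => ?_) s
          · rw [Fin.append_left]
            intro h
            have := (hf'.deg i).2
            omega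
          · intro _
            exact h0 i
        · have e2 : Finset.univ.filter (fun s => (g s).natDegree = d) = ∅ := by
            rw [Finset.filter_eq_empty_iff]
            intro s _ h
            rw [hdeg s] at h
            exact hne h.symm
          rw [e2, Finset.sum_empty, add_zero] at hsum
          have h0 := hf'.ind (fun i => q (Fin.castAdd _ i)) d hd hsum
          intro s
          refine Fin.addCases (fun i => ?_) (fun i => ?_) s
          · rw [Fin.append_left]
            exact h0 i
          · rw [Fin.append_right, hdeg i]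
            intro h
            exact absurd h.symm hne
      · intro q r hsum
        rw [sum_append] at hsum
        rcases eq_or_ne D 0 with rfl | hD
        · have hm0 : m = 0 := by simpa using hm
          subst hm0
          have e2 : Finset.univ.filter (fun s => (g s).natDegree = 1) = Finset.univ := by
            rw [Finset.filter_eq_self]
            exact fun s _ => hdeg s
          rw [e2, Finset.univ_eq_empty (α := Fin 0), Finset.filter_empty, Finset.sum_empty,
            zero_add] at hsum
          have h0 := indep_of_basis (D := 0) hlin hdeg (fun i => q (Fin.natAdd 0 i))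
            (by rw [hsum]; exact mem_RR_zero.2 ⟨r, rfl⟩)
          intro s
          refine Fin.addCases (fun i => i.elim0) (fun i => ?_) s
          intro _
          exact h0 i
        · have e2 : Finset.univ.filter (fun s => (g s).natDegree = 1) = ∅ := by
            rw [Finset.filter_eq_empty_iff]
            intro s _ h
            rw [hdeg s] at h
            omega
          rw [e2, Finset.sum_empty, add_zero] at hsum
          have h0 := hf'.ind1 (fun i => q (Fin.castAdd _ i)) r hsum
          intro s
          refine Fin.addCases (fun i => ?_) (fun i => ?_) s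
          · rw [Fin.append_left]
            exact h0 i
          · rw [Fin.append_right, hdeg i]
            intro h
            omega
      · intro x hx
        have hxI : LL D x ∈ I := ⟨x, hx, rfl⟩
        let c : Fin (finrank ℚ I) → ℚ := fun i => b.repr ⟨LL D x, hxI⟩ i
        have hc : LL D x = ∑ i, c i • LL D (g i) := by
          have h1 := b.sum_repr ⟨LL D x, hxI⟩
          have h2 := congrArg (fun z : I => (z : ℂ ⧸ RR D)) h1
          simp only [Submodule.coe_sum, Submodule.coe_smul] at h2
          rw [← h2]
          refine Finset.sum_congr rfl fun i _ => ?_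
          rw [hgL i]
        let x0 : ℂ[X] := x - ∑ i, c i • g i
        have hx0V : x0 ∈ V := V.sub_mem hx (V.sum_mem fun i _ => V.smul_mem _ (hgV i))
        have hx0 : x0.coeff (D + 1) ∈ RR D := by
          rw [← LL_eq_zero, map_sub, map_sum, hc]
          simp only [map_smul]
          exact sub_self _
        have key : ∃ q' : Fin m → ℚ, Triv (x0 - ∑ s, q' s • f' s) := by
          rcases eq_or_ne D 0 with rfl | hD
          · obtain ⟨r, hr⟩ := mem_RR_zero.1 hx0
            refine ⟨fun _ => 0, ?_⟩
            simp only [zero_smul, Finset.sum_const_zero, sub_zero]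
            exact triv_of_natDegree_one (hV x0 hx0V) hr
          · rw [mem_RR_pos hD] at hx0
            exact hf'.span x0 (hmem'.2 ⟨hx0V, natDegree_le_of_coeff (hV x0 hx0V) hx0⟩)
        obtain ⟨q', hq'⟩ := key
        refine ⟨Fin.append q' c, ?_⟩
        have e : x - ∑ s, (Fin.append q' c s) • (Fin.append f' g s) =
            x0 - ∑ s, q' s • f' s := by
          rw [Fin.sum_univ_add]
          simp only [Fin.append_left, Fin.append_right]
          change _ = x - ∑ i, c i • g i - _
          abel
        rw [e]
        exact hq'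

end MP60829e.SE
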