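import Mathlib

/-! # Locally linearly dependent maps

A lemma of Amitsur: if a bilinear map `b : E × Z → V` with `dim E = e` finite has the property that
no map `b x`, `x ≠ 0`, has its range inside a subspace of dimension less than `e`, then some `h`
makes `x ↦ b x h` injective. -/

namespace MP60829e.SE

open Module

/-- Perturbation: if `1 + t N` is the matrix, its determinant is nonzero for some nonzero `t`. -/
private theorem amitsur_det {k : Type*} [Field k] [Infinite k] {n : ℕ}
    (N : Matrix (Fin n) (Fin n) k) : ∃ t : k, t ≠ 0 ∧ (1 + t • N).det ≠ 0 := by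
  classical
  set p : Polynomial k :=
    ((1 : Matrix (Fin n) (Fin n) (Polynomial k)) + (Polynomial.X : Polynomial k) •
      N.map Polynomial.C).det with hp
  have hev : ∀ t : k, p.eval t = (1 + t • N).det := by
    intro t
    have h1 : p.eval t = (Polynomial.evalRingHom t) p := rfl
    rw [h1, hp, RingHom.map_det]
    congr 1
    ext i j
    by_cases hij : i = j
    · subst hij
      simp [Matrix.map_apply]
      exact mul_comm _ _
    · simp [Matrix.map_apply, Matrix.one_apply_ne hij]
      exact mul_comm _ _
  have h0 : p.eval 0 = 1 := by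
    rw [hev]
    simp
  have hp0 : p ≠ 0 := by
    intro h
    rw [h] at h0
    simp at h0
  have hX : p * Polynomial.X ≠ 0 := mul_ne_zero hp0 Polynomial.X_ne_zero
  by_contra hcon
  push Not at hcon
  apply hX
  apply Polynomial.funext
  intro t
  rw [Polynomial.eval_mul, Polynomial.eval_X, Polynomial.eval_zero]
  by_cases ht : t = 0
  · rw [ht, mul_zero]
  · rw [hev, hcon t ht, zero_mul]

/-- A lemma of Amitsur on locally linearly dependent maps. -/
theorem amitsur {k E Z V : Type*} [Field k] [Infinite k] [AddCommGroup E] [Module k E]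
    [FiniteDimensional k E] [AddCommGroup Z] [Module k Z] [AddCommGroup V] [Module k V]
    (b : E →ₗ[k] Z →ₗ[k] V)
    (hb : ∀ x : E, x ≠ 0 → ∀ W : Submodule k V, FiniteDimensional k W →
      finrank k W < finrank k E → ¬ LinearMap.range (b x) ≤ W) :
    ∃ h : Z, Function.Injective (fun x : E => b x h) := by
  classical
  set r : Z → ℕ := fun h => finrank k (LinearMap.range (b.flip h)) with hr
  have hre : ∀ h, r h ≤ finrank k E := fun h => LinearMap.finrank_range_le _
  obtain ⟨h, hmax⟩ : ∃ h : Z, ∀ h', r h' ≤ r h := by
    refine ⟨Function.argmin (fun h => finrank k E - r h), fun h' => ?_⟩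
    have h1 := Function.argmin_le (fun h => finrank k E - r h) h'
    have h2 := hre (Function.argmin (fun h => finrank k E - r h))
    have h3 := hre h'
    omega
  refine ⟨h, ?_⟩
  by_cases hker : LinearMap.ker (b.flip h) = ⊥
  · have := LinearMap.ker_eq_bot.1 hker
    exact this
  exfalso
  obtain ⟨x, hxk, hx0⟩ := Submodule.exists_mem_ne_zero_of_ne_bot hker
  have hxh : b x h = 0 := by simpa using hxk
  have hlt : r h < finrank k E := by
    have h1 := LinearMap.finrank_range_add_finrank_ker (b.flip h)
    have h2 : 0 < finrank k (LinearMap.ker (b.flip h)) := by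
      have : Nontrivial (LinearMap.ker (b.flip h)) :=
        (Submodule.nontrivial_iff_ne_bot).2 hker
      exact finrank_pos
    have h3 : r h + finrank k (LinearMap.ker (b.flip h)) = finrank k E := h1
    omega
  refine hb x hx0 (LinearMap.range (b.flip h)) inferInstance hlt ?_
  rintro _ ⟨z, rfl⟩
  by_contra hz
  set W := LinearMap.range (b.flip h) with hW
  set ρ := finrank k W with hρ
  let B : Basis (Fin ρ) k W := finBasis k W
  have hpre : ∀ i : Fin ρ, ∃ y : E, b y h = (B i : V) := by
    intro i
    obtain ⟨y, hy⟩ := (B i).2
    exact ⟨y, by simpa using hy⟩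
  choose y hy using hpre
  have hBli : LinearIndependent k (fun i : Fin ρ => (B i : V)) := by
    have := B.linearIndependent.map' W.subtype (Submodule.ker_subtype _)
    exact this
  have hspan : Submodule.span k (Set.range fun i : Fin ρ => (B i : V)) ≤ W := by
    rw [Submodule.span_le]
    rintro _ ⟨i, rfl⟩
    exact (B i).2
  have hli : LinearIndependent k (Fin.cons (b x z) (fun i : Fin ρ => (B i : V)) :
      Fin (ρ + 1) → V) :=
    linearIndependent_finCons.2 ⟨hBli, fun hmem => hz (hspan hmem)⟩
  set v : Fin (ρ + 1) → V := Fin.cons (b x z) (fun i : Fin ρ => (B i : V)) with hv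
  have hinj : LinearMap.ker (Fintype.linearCombination k v) = ⊥ := by
    rw [LinearMap.ker_eq_bot]
    exact hli.fintypeLinearCombination_injective
  obtain ⟨π, hπ⟩ := LinearMap.exists_leftInverse_of_injective _ hinj
  have hπv : ∀ j, π (v j) = Pi.single j 1 := by
    intro j
    have h1 := LinearMap.congr_fun hπ (Pi.single j 1)
    simpa [Fintype.linearCombination_apply_single] using h1
  let u : Fin (ρ + 1) → V := Fin.cons 0 (fun i : Fin ρ => b (y i) z)
  let N : Matrix (Fin (ρ + 1)) (Fin (ρ + 1)) k := fun i j => π (u j) i
  obtain ⟨t, ht0, htd⟩ := amitsur_det N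
  let vt : Fin (ρ + 1) → V := fun j => v j + t • u j
  have hvt : LinearIndependent k vt := by
    rw [Fintype.linearIndependent_iff]
    intro c hc j
    have h1 : (1 + t • N).mulVec c = 0 := by
      ext i
      have h2 : π (∑ j, c j • vt j) i = 0 := by rw [hc]; simp
      rw [map_sum, Finset.sum_apply] at h2
      rw [Pi.zero_apply, ← h2]
      unfold Matrix.mulVec dotProduct
      apply Finset.sum_congr rfl
      intro j _
      have h3 : π (vt j) = Pi.single j 1 + t • π (u j) := by
        change π (v j + t • u j) = _
        rw [map_add, map_smul, hπv]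
      rw [map_smul, h3]
      simp only [Pi.smul_apply, Pi.add_apply, smul_eq_mul, Matrix.add_apply, Matrix.smul_apply]
      rw [Matrix.one_apply, Pi.single_apply]
      change ((if i = j then (1 : k) else 0) + t * π (u j) i) * c j =
        c j * ((if i = j then (1 : k) else 0) + t * π (u j) i)
      ring
    have h4 := Matrix.eq_zero_of_mulVec_eq_zero htd h1
    exact congrFun h4 j
  have hmem : ∀ j, vt j ∈ LinearMap.range (b.flip (h + t • z)) := by
    intro j
    refine Fin.cases ?_ (fun i => ?_) j
    · refine ⟨t⁻¹ • x, ?_⟩
      change b (t⁻¹ • x) (h + t • z) = v 0 + t • u 0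
      have e1 : v 0 = b x z := rfl
      have e2 : u 0 = 0 := rfl
      rw [e1, e2, smul_zero, add_zero, map_smul, LinearMap.smul_apply, map_add, hxh, zero_add,
        map_smul, smul_smul, inv_mul_cancel₀ ht0, one_smul]
    · refine ⟨y i, ?_⟩
      change b (y i) (h + t • z) = v i.succ + t • u i.succ
      have e1 : v i.succ = (B i : V) := rfl
      have e2 : u i.succ = b (y i) z := rfl
      rw [e1, e2, map_add, map_smul, hy i]
  have hcard : ρ + 1 ≤ r (h + t • z) := by
    let vt' : Fin (ρ + 1) → LinearMap.range (b.flip (h + t • z)) := fun j => ⟨vt j, hmem j⟩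
    have h5 : LinearIndependent k vt' := by
      apply LinearIndependent.of_comp (LinearMap.range (b.flip (h + t • z))).subtype
      exact hvt
    have := h5.fintype_card_le_finrank
    simpa using this
  have := hmax (h + t • z)
  have e : r h = ρ := rfl
  omega

end MP60829e.SE
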