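import Mathlib

namespace MP60829e.SE

open Finset Metric

/-- an entire function vanishing at finitely many points is divisible by the product -/
theorem exists_factor {f : ℂ → ℂ} (hf : Differentiable ℂ f) (Z : Finset ℂ)
    (hZ : ∀ w ∈ Z, f w = 0) :
    ∃ g : ℂ → ℂ, Differentiable ℂ g ∧ ∀ z, f z = (∏ w ∈ Z, (z - w)) * g z := by
  classical
  induction Z using Finset.induction_on generalizing f with
  | empty => exact ⟨f, hf, fun z => by simp⟩
  | insert w Z hw ih =>
    have hd : Differentiable ℂ (dslope f w) := by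
      have h := (Complex.differentiableOn_dslope (f := f) (s := Set.univ) (c := w)
        Filter.univ_mem).mpr hf.differentiableOn
      exact fun z => (h z (Set.mem_univ z)).differentiableAt Filter.univ_mem
    have hfac : ∀ z, f z = (z - w) * dslope f w z := by
      intro z
      have h := sub_smul_dslope f w z
      rw [hZ w (mem_insert_self _ _), sub_zero, smul_eq_mul] at h
      exact h.symm
    have hv : ∀ v ∈ Z, dslope f w v = 0 := by
      intro v hv
      have h1 := hZ v (mem_insert_of_mem hv)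
      rw [hfac v] at h1
      rcases mul_eq_zero.mp h1 with h2 | h2
      · exact absurd (sub_eq_zero.mp h2 ▸ hv) hw
      · exact h2
    obtain ⟨g, hg, hgz⟩ := ih hd hv
    refine ⟨g, hg, fun z => ?_⟩
    rw [prod_insert hw, hfac z, hgz z, mul_assoc]

/-- Schwarz lemma with many zeros -/
theorem schwarz {f : ℂ → ℂ} (hf : Differentiable ℂ f) (Z : Finset ℂ) {r R M : ℝ}
    (hr : 0 < r) (hR : r < R) (hZ : ∀ w ∈ Z, f w = 0) (hZr : ∀ w ∈ Z, ‖w‖ ≤ r)
    (hM : ∀ z, ‖z‖ = R → ‖f z‖ ≤ M) (z : ℂ) (hz : ‖z‖ ≤ r) :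
    ‖f z‖ ≤ (2 * r / (R - r)) ^ (#Z) * M := by
  obtain ⟨g, hg, hgz⟩ := exists_factor hf Z hZ
  have hRr : 0 < R - r := sub_pos.mpr hR
  have hR0 : 0 < R := hr.trans hR
  have hgM : ∀ u ∈ frontier (ball (0:ℂ) R), ‖g u‖ ≤ M / (R - r) ^ (#Z) := by
    intro u hu
    rw [frontier_ball _ hR0.ne', mem_sphere_zero_iff_norm] at hu
    have h1 := hM u hu
    rw [hgz u, norm_mul, norm_prod] at h1
    have h2 : (R - r) ^ (#Z) ≤ ∏ w ∈ Z, ‖u - w‖ := by
      rw [← prod_const]
      apply prod_le_prod
      · intro i _; exact hRr.le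
      · intro w hw
        have h3 := norm_sub_norm_le u w
        have h4 := hZr w hw
        linarith
    rw [le_div_iff₀ (by positivity), mul_comm]
    refine le_trans ?_ h1
    gcongr
  have hgz' : ‖g z‖ ≤ M / (R - r) ^ (#Z) := by
    refine Complex.norm_le_of_forall_mem_frontier_norm_le (U := ball (0:ℂ) R) isBounded_ball
      hg.diffContOnCl hgM ?_
    rw [closure_ball _ hR0.ne', mem_closedBall_zero_iff]
    linarith
  have hprod : ∏ w ∈ Z, ‖z - w‖ ≤ (2 * r) ^ (#Z) := by
    rw [← prod_const]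
    apply prod_le_prod
    · intro i _; exact norm_nonneg _
    · intro w hw
      have h3 := norm_sub_le z w
      have h4 := hZr w hw
      linarith
  rw [hgz z, norm_mul, norm_prod]
  calc (∏ w ∈ Z, ‖z - w‖) * ‖g z‖ ≤ (2 * r) ^ (#Z) * (M / (R - r) ^ (#Z)) := by
        gcongr
    _ = (2 * r / (R - r)) ^ (#Z) * M := by
        rw [div_pow]; ring

end MP60829e.SE
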