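import Mathlib
import Pool.Agent.Lib.MP_60829e_nt.BAlg
import Pool.Agent.Lib.MP_60829e_nt.SE.SixSchwarz

/-! The six exponentials theorem over a number field (Schneider's method). -/

namespace MP60829e.SE

open Finset NumberField

/-- the points -/
noncomputable def zz (y : Fin 3 → ℂ) (s : Fin 3 → ℕ) : ℂ := ∑ j, (s j : ℂ) * y j

/-- the frequencies -/
noncomputable def ww (x : Fin 2 → ℂ) {L : ℕ} (k : Fin 2 → Fin L) : ℂ := ∑ i, ((k i : ℕ) : ℂ) * x i

theorem zz_inj {y : Fin 3 → ℂ} (hy : LinearIndependent ℚ y) : Function.Injective (zz y) := by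
  intro s t h
  unfold zz at h
  have h1 : ∑ j, ((s j : ℚ) - (t j : ℚ)) • y j = 0 := by
    have : ∑ j, ((s j : ℚ) - (t j : ℚ)) • y j = ∑ j, (s j : ℂ) * y j - ∑ j, (t j : ℂ) * y j := by
      rw [← sum_sub_distrib]
      apply sum_congr rfl
      intro j _
      rw [Rat.smul_def]
      push_cast
      ring
    rw [this, h, sub_self]
  funext j
  have h2 := Fintype.linearIndependent_iff.mp hy _ h1 j
  have h3 : (s j : ℚ) = (t j : ℚ) := sub_eq_zero.mp h2
  exact_mod_cast h3

theorem ww_inj {x : Fin 2 → ℂ} (hx : LinearIndependent ℚ x) {L : ℕ} :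
    Function.Injective (ww x : (Fin 2 → Fin L) → ℂ) := by
  intro s t h
  unfold ww at h
  have h1 : ∑ j, (((s j : ℕ) : ℚ) - ((t j : ℕ) : ℚ)) • x j = 0 := by
    have : ∑ j, (((s j : ℕ) : ℚ) - ((t j : ℕ) : ℚ)) • x j =
        ∑ j, ((s j : ℕ) : ℂ) * x j - ∑ j, ((t j : ℕ) : ℂ) * x j := by
      rw [← sum_sub_distrib]
      apply sum_congr rfl
      intro j _
      rw [Rat.smul_def]
      push_cast
      ring
    rw [this, h, sub_self]
  funext j
  have h2 := Fintype.linearIndependent_iff.mp hx _ h1 j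
  have h3 : ((s j : ℕ) : ℚ) = ((t j : ℕ) : ℚ) := sub_eq_zero.mp h2
  exact Fin.ext (by exact_mod_cast h3)

/-- the character attached to a frequency -/
noncomputable def chi (y : Fin 3 → ℂ) (w : ℂ) : Multiplicative (Fin 3 → ℕ) →* ℂ where
  toFun s := Complex.exp (w * zz y s.toAdd)
  map_one' := by simp [zz]
  map_mul' s t := by
    rw [← Complex.exp_add, ← mul_add]
    congr 2
    unfold zz
    rw [← sum_add_distrib]
    apply sum_congr rfl
    intro j _
    rw [toAdd_mul]
    simp only [Pi.add_apply]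
    push_cast
    ring

theorem chi_inj {y : Fin 3 → ℂ} (hy : LinearIndependent ℚ y) : Function.Injective (chi y) := by
  intro w v h
  by_contra hne
  have hwv : w - v ≠ 0 := sub_ne_zero.mpr hne
  have key : ∀ j : Fin 3, ∃ n : ℤ, (w - v) * y j = n * (2 * Real.pi * Complex.I) := by
    intro j
    have h1 := DFunLike.congr_fun h (Multiplicative.ofAdd (Pi.single j 1))
    have h2 : zz y (Pi.single j 1) = y j := by
      unfold zz
      rw [sum_eq_single j]
      · simp
      · intro b _ hb; simp [Pi.single_apply, hb]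
      · intro hb; exact absurd (mem_univ j) hb
    change Complex.exp (w * zz y (Pi.single j 1)) = Complex.exp (v * zz y (Pi.single j 1)) at h1
    rw [h2, Complex.exp_eq_exp_iff_exists_int] at h1
    obtain ⟨n, hn⟩ := h1
    exact ⟨n, by rw [sub_mul, hn]; ring⟩
  choose n hn using key
  have hpi : (2 * Real.pi * Complex.I : ℂ) ≠ 0 := Complex.two_pi_I_ne_zero
  have hy0 : ∀ j, y j ≠ 0 := fun j => hy.ne_zero j
  have hn0 : n 0 ≠ 0 := by
    intro h0
    have := hn 0
    rw [h0] at this
    simp only [Int.cast_zero, zero_mul, mul_eq_zero] at this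
    rcases this with h1 | h1
    · exact hwv h1
    · exact hy0 0 h1
  have hrel : (n 1 : ℂ) * y 0 - (n 0 : ℂ) * y 1 = 0 := by
    have h1 : (w - v) * ((n 1 : ℂ) * y 0 - (n 0 : ℂ) * y 1) = 0 := by
      have e : (w - v) * ((n 1 : ℂ) * y 0 - (n 0 : ℂ) * y 1) =
        (n 1 : ℂ) * ((w - v) * y 0) - (n 0 : ℂ) * ((w - v) * y 1) := by ring
      rw [e, hn 0, hn 1]
      ring
    exact (mul_eq_zero.mp h1).resolve_left hwv
  have h3 : ∑ j, (![(n 1 : ℚ), -(n 0 : ℚ), 0] j) • y j = 0 := by
    rw [Fin.sum_univ_three]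
    simp only [Matrix.cons_val_zero, Matrix.cons_val_one, Matrix.cons_val, Rat.smul_def]
    push_cast
    linear_combination hrel
  have h4 := Fintype.linearIndependent_iff.mp hy _ h3 1
  simp only [Matrix.cons_val_one, Matrix.cons_val_zero, neg_eq_zero] at h4
  exact hn0 (by exact_mod_cast h4)

/-- an exponential sum with independent frequencies does not vanish at all points -/
theorem exists_point {x : Fin 2 → ℂ} {y : Fin 3 → ℂ} (hx : LinearIndependent ℚ x)
    (hy : LinearIndependent ℚ y) {L : ℕ} (p : (Fin 2 → Fin L) → ℂ) (hp : p ≠ 0) :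
    ∃ s : Fin 3 → ℕ, ∑ k, p k * Complex.exp (ww x k * zz y s) ≠ 0 := by
  by_contra hcon
  push Not at hcon
  apply hp
  have hli := (linearIndependent_monoidHom (Multiplicative (Fin 3 → ℕ)) ℂ).comp
    (fun k : Fin 2 → Fin L => chi y (ww x k)) ((chi_inj hy).comp (ww_inj hx))
  have h0 : ∑ k, p k • ((fun f : Multiplicative (Fin 3 → ℕ) →* ℂ =>
      (f : Multiplicative (Fin 3 → ℕ) → ℂ)) ∘ fun k : Fin 2 → Fin L => chi y (ww x k)) k = 0 := by
    funext s
    rw [Finset.sum_apply]
    exact hcon s.toAdd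
  funext k
  exact Fintype.linearIndependent_iff.mp hli p h0 k

end MP60829e.SE
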