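import Mathlib
import Pool.Agent.Lib.MP_60829e_nt.SE.SixPoints

/-! Monomials in the six algebraic numbers. -/

namespace MP60829e.SE

open Finset NumberField Pool.Agent.Lib.MP_60829e_nt.Bk

variable {K : Type} [Field K] [NumberField K]

/-- the monomial in the algebraic numbers -/
noncomputable def mon (α : Fin 2 × Fin 3 → K) {L : ℕ} (k : Fin 2 → Fin L) (s : Fin 3 → ℕ) : K :=
  ∏ i, α i ^ (((k i.1 : ℕ) * s i.2 : ℕ) : ℤ)

theorem mon_exp (σ : K →+* ℂ) {x : Fin 2 → ℂ} {y : Fin 3 → ℂ} (α : Fin 2 × Fin 3 → K)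
    (hα : ∀ i, σ (α i) = Complex.exp (x i.1 * y i.2)) {L : ℕ} (k : Fin 2 → Fin L)
    (s : Fin 3 → ℕ) : σ (mon α k s) = Complex.exp (ww x k * zz y s) := by
  unfold mon ww zz
  rw [map_prod, sum_mul_sum, ← univ_product_univ, Finset.prod_product, Complex.exp_sum]
  apply prod_congr rfl
  intro i _
  rw [Complex.exp_sum]
  apply prod_congr rfl
  intro j _
  rw [map_zpow₀, hα, ← Complex.exp_int_mul]
  congr 1
  push_cast
  ring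

theorem card_six : Fintype.card (Fin 2 × Fin 3) = 6 := by
  rw [Fintype.card_prod, Fintype.card_fin, Fintype.card_fin]

theorem mon_int (α : Fin 2 × Fin 3 → K) {Q : ℕ} (hQ : ∀ i, IsIntegral ℤ ((Q : K) * α i))
    (hQ' : ∀ i, IsIntegral ℤ ((Q : K) * (α i)⁻¹)) {L : ℕ} (k : Fin 2 → Fin L)
    (s : Fin 3 → ℕ) (X : ℕ) (hs : ∀ j, s j ≤ X) :
    IsIntegral ℤ (((Q ^ (6 * (L * X)) : ℕ) : K) * mon α k s) := by
  have h := eps_int α Q hQ hQ' (fun i => (((k i.1 : ℕ) * s i.2 : ℕ) : ℤ)) (L * X) (by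
    intro i
    rw [Int.natAbs_natCast]
    exact Nat.mul_le_mul (k i.1).2.le (hs i.2))
  rw [card_six] at h
  exact h

theorem mon_norm (α : Fin 2 × Fin 3 → K) {C : ℝ} (hC1 : 1 ≤ C)
    (hC : ∀ i, ∀ φ : K →+* ℂ, ‖φ (α i)‖ ≤ C) (hC' : ∀ i, ∀ φ : K →+* ℂ, ‖φ (α i)⁻¹‖ ≤ C)
    {L : ℕ} (k : Fin 2 → Fin L) (s : Fin 3 → ℕ) (X : ℕ) (hs : ∀ j, s j ≤ X) (φ : K →+* ℂ) :
    ‖φ (mon α k s)‖ ≤ C ^ (6 * (L * X)) := by
  have h := eps_norm α hC1 hC hC' (fun i => (((k i.1 : ℕ) * s i.2 : ℕ) : ℤ)) (L * X) (by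
    intro i
    rw [Int.natAbs_natCast]
    exact Nat.mul_le_mul (k i.1).2.le (hs i.2)) φ
  rw [card_six] at h
  exact h

theorem isIntegral_nat (n : ℕ) : IsIntegral ℤ (n : K) := by
  have : IsIntegral ℤ (algebraMap ℤ K (n : ℤ)) := isIntegral_algebraMap
  simpa using this

/-- a common denominator and a common bound -/
theorem constants (α : Fin 2 × Fin 3 → K) : ∃ (Q : ℕ) (C : ℝ), 1 ≤ Q ∧ 1 ≤ C ∧
    (∀ i, IsIntegral ℤ ((Q : K) * α i)) ∧ (∀ i, IsIntegral ℤ ((Q : K) * (α i)⁻¹)) ∧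
    (∀ i, ∀ φ : K →+* ℂ, ‖φ (α i)‖ ≤ C) ∧ (∀ i, ∀ φ : K →+* ℂ, ‖φ (α i)⁻¹‖ ≤ C) := by
  obtain ⟨Q1, hQ1, hQ1i⟩ := exists_den α
  obtain ⟨Q2, hQ2, hQ2i⟩ := exists_den (fun i => (α i)⁻¹)
  obtain ⟨C1, hC1⟩ := exists_bd α
  obtain ⟨C2, hC2⟩ := exists_bd (fun i => (α i)⁻¹)
  have h1 : (0:ℝ) ≤ C1 := Nat.cast_nonneg _
  have h2 : (0:ℝ) ≤ C2 := Nat.cast_nonneg _
  refine ⟨Q1 * Q2, (C1 : ℝ) + C2 + 1, Nat.mul_pos hQ1 hQ2, by linarith, ?_, ?_, ?_, ?_⟩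
  · intro i
    have e : (((Q1 * Q2 : ℕ) : K) * α i) = (Q2 : K) * ((Q1 : K) * α i) := by
      push_cast; ring
    rw [e]
    exact (isIntegral_nat Q2).mul (hQ1i i)
  · intro i
    have e : (((Q1 * Q2 : ℕ) : K) * (α i)⁻¹) = (Q1 : K) * ((Q2 : K) * (α i)⁻¹) := by
      push_cast; ring
    rw [e]
    exact (isIntegral_nat Q1).mul (hQ2i i)
  · intro i φ
    have := hC1 i φ
    linarith
  · intro i φ
    have := hC2 i φ
    linarith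

end MP60829e.SE
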