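import Mathlib
import Pool.Agent.Lib.MP_60829e_nt.SE.SixMon

/-! The coefficients of the auxiliary function. -/

namespace MP60829e.SE

open Finset NumberField Pool.Agent.Lib.MP_60829e_nt.Bk

/-- the values of the auxiliary function in the field -/
noncomputable def xi {K : Type} [Field K] [NumberField K] (α : Fin 2 × Fin 3 → K) {L : ℕ}
    (p : (Fin 2 → Fin L) → 𝓞 K) (s : Fin 3 → ℕ) : K :=
  ∑ k, mon α k s * (p k : K)

/-- the auxiliary function -/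
noncomputable def FF {K : Type} [Field K] [NumberField K] (σ : K →+* ℂ) (x : Fin 2 → ℂ) {L : ℕ}
    (p : (Fin 2 → Fin L) → 𝓞 K) (z : ℂ) : ℂ :=
  ∑ k, σ (p k : K) * Complex.exp (ww x k * z)

variable {K : Type} [Field K] [NumberField K]

theorem xi_FF (σ : K →+* ℂ) {x : Fin 2 → ℂ} {y : Fin 3 → ℂ} (α : Fin 2 × Fin 3 → K)
    (hα : ∀ i, σ (α i) = Complex.exp (x i.1 * y i.2)) {L : ℕ} (p : (Fin 2 → Fin L) → 𝓞 K)
    (s : Fin 3 → ℕ) : σ (xi α p s) = FF σ x p (zz y s) := by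
  unfold xi FF
  rw [map_sum]
  apply sum_congr rfl
  intro k _
  rw [map_mul, mon_exp σ α hα, mul_comm]

theorem card_fun2 (L : ℕ) : Fintype.card (Fin 2 → Fin L) = L ^ 2 := by
  rw [Fintype.card_fun, Fintype.card_fin, Fintype.card_fin]

theorem card_fun3 (S : ℕ) : Fintype.card (Fin 3 → Fin S) = S ^ 3 := by
  rw [Fintype.card_fun, Fintype.card_fin, Fintype.card_fin]

theorem mon_zero_ne (α : Fin 2 × Fin 3 → K) {L : ℕ} (k : Fin 2 → Fin L) :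
    mon α k (fun _ => 0) ≠ 0 := by
  unfold mon
  rw [prod_eq_one]
  · exact one_ne_zero
  · intro i _
    rw [Nat.mul_zero, Nat.cast_zero, zpow_zero]

/-- the coefficients, by Siegel's lemma -/
theorem exists_coef (K : Type) [Field K] [NumberField K] : ∃ c : ℝ, 1 ≤ c ∧
    ∀ (α : Fin 2 × Fin 3 → K) (Q : ℕ) (C : ℝ), 1 ≤ Q → 1 ≤ C →
    (∀ i, IsIntegral ℤ ((Q : K) * α i)) → (∀ i, IsIntegral ℤ ((Q : K) * (α i)⁻¹)) →
    (∀ i, ∀ φ : K →+* ℂ, ‖φ (α i)‖ ≤ C) → (∀ i, ∀ φ : K →+* ℂ, ‖φ (α i)⁻¹‖ ≤ C) →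
    ∀ S L : ℕ, 1 ≤ S → 2 * S ^ 3 ≤ L ^ 2 →
    ∃ p : (Fin 2 → Fin L) → 𝓞 K, p ≠ 0 ∧ (∀ s : Fin 3 → ℕ, (∀ j, s j < S) → xi α p s = 0) ∧
      ∀ k, ∀ φ : K →+* ℂ, ‖φ (p k : K)‖ ≤
        c * (c * (L : ℝ) ^ 2 * ((Q : ℝ) ^ (6 * (L * S)) * C ^ (6 * (L * S)))) := by
  classical
  obtain ⟨c, hc1, hsiegel⟩ := siegel K
  refine ⟨c, hc1, ?_⟩
  intro α Q C hQ hC hQi hQi' hCi hCi' S L hS hSL
  have hQr : (1:ℝ) ≤ Q := by exact_mod_cast hQ
  have hL : 1 ≤ L := by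
    rcases Nat.eq_zero_or_pos L with h | h
    · rw [h] at hSL
      have : 1 ≤ S ^ 3 := Nat.one_le_pow _ _ hS
      omega
    · exact h
  have hq : ((Q ^ (6 * (L * S)) : ℕ) : K) ≠ 0 := by
    have : Q ^ (6 * (L * S)) ≠ 0 := (Nat.pow_pos hQ).ne'
    exact_mod_cast this
  obtain ⟨p, hp0, hpz, hpb⟩ := hsiegel (Fin 3 → Fin S) (Fin 2 → Fin L)
    (fun s k => ((Q ^ (6 * (L * S)) : ℕ) : K) * mon α k (fun j => (s j : ℕ)))
    ((Q : ℝ) ^ (6 * (L * S)) * C ^ (6 * (L * S))) (by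
      have h2 : (1:ℝ) ≤ (Q : ℝ) ^ (6 * (L * S)) := one_le_pow₀ hQr
      have h3 : (1:ℝ) ≤ C ^ (6 * (L * S)) := one_le_pow₀ hC
      exact one_le_mul_of_one_le_of_one_le h2 h3) (by
      rw [card_fun3]
      exact Nat.pow_pos hS) (by
      rw [card_fun3, card_fun2]
      exact hSL) (by
      intro s k
      exact mon_int α hQi hQi' k _ S (fun j => (s j).2.le)) (by
      intro s k φ
      rw [map_mul, norm_mul, map_natCast, Complex.norm_natCast, Nat.cast_pow]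
      exact mul_le_mul_of_nonneg_left (mon_norm α hC hCi hCi' k _ S (fun j => (s j).2.le) φ)
        (by positivity)) (by
      refine ⟨fun _ => ⟨0, hS⟩, fun _ => ⟨0, hL⟩, ?_⟩
      exact mul_ne_zero hq (mon_zero_ne α _))
  refine ⟨p, hp0, ?_, ?_⟩
  · intro s hs
    have h1 := hpz (fun j => ⟨s j, hs j⟩)
    have h2 : ((Q ^ (6 * (L * S)) : ℕ) : K) * xi α p s = 0 := by
      rw [← h1]
      unfold xi
      rw [mul_sum]
      apply sum_congr rfl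
      intro k _
      rw [mul_assoc]
    exact (mul_eq_zero.mp h2).resolve_left hq
  · intro k φ
    have h := hpb k φ
    rw [card_fun2, Nat.cast_pow] at h
    exact h

/-- some value does not vanish -/
theorem exists_xi (σ : K →+* ℂ) {x : Fin 2 → ℂ} {y : Fin 3 → ℂ} (hx : LinearIndependent ℚ x)
    (hy : LinearIndependent ℚ y) (α : Fin 2 × Fin 3 → K)
    (hα : ∀ i, σ (α i) = Complex.exp (x i.1 * y i.2)) {L : ℕ} (p : (Fin 2 → Fin L) → 𝓞 K)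
    (hp : p ≠ 0) : ∃ s, xi α p s ≠ 0 := by
  obtain ⟨s, hs⟩ := exists_point hx hy (fun k => σ (p k : K)) (by
    intro h
    apply hp
    funext k
    have h1 : σ (p k : K) = 0 := congrFun h k
    have h2 : (p k : K) = 0 := (map_eq_zero σ).mp h1
    exact RingOfIntegers.ext h2)
  refine ⟨s, fun h => hs ?_⟩
  have h3 := xi_FF σ α hα p s
  rw [h, map_zero] at h3
  exact h3.symm

/-- the first size at which a value does not vanish -/
theorem exists_first (σ : K →+* ℂ) {x : Fin 2 → ℂ} {y : Fin 3 → ℂ} (hx : LinearIndependent ℚ x)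
    (hy : LinearIndependent ℚ y) (α : Fin 2 × Fin 3 → K)
    (hα : ∀ i, σ (α i) = Complex.exp (x i.1 * y i.2)) {L S : ℕ} (p : (Fin 2 → Fin L) → 𝓞 K)
    (hp : p ≠ 0) (hS : ∀ s : Fin 3 → ℕ, (∀ j, s j < S) → xi α p s = 0) :
    ∃ X : ℕ, S ≤ X ∧ (∀ s : Fin 3 → ℕ, (∀ j, s j < X) → xi α p s = 0) ∧
      ∃ s : Fin 3 → ℕ, (∀ j, s j ≤ X) ∧ xi α p s ≠ 0 := by
  classical
  obtain ⟨s1, hs1⟩ := exists_xi σ hx hy α hα p hp
  have hex : ∃ X : ℕ, ∃ s : Fin 3 → ℕ, (∀ j, s j ≤ X) ∧ xi α p s ≠ 0 :=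
    ⟨∑ j, s1 j, s1, fun j => single_le_sum (f := s1) (fun _ _ => Nat.zero_le _) (mem_univ j), hs1⟩
  obtain ⟨X, hX, hXmin⟩ : ∃ X : ℕ, (∃ s : Fin 3 → ℕ, (∀ j, s j ≤ X) ∧ xi α p s ≠ 0) ∧
      ∀ X' < X, ¬ ∃ s : Fin 3 → ℕ, (∀ j, s j ≤ X') ∧ xi α p s ≠ 0 :=
    ⟨Nat.find hex, Nat.find_spec hex, fun X' h => Nat.find_min hex h⟩
  obtain ⟨s2, hs2, hs2ne⟩ := hX
  refine ⟨X, ?_, ?_, s2, hs2, hs2ne⟩
  · by_contra hlt
    push Not at hlt
    exact hs2ne (hS s2 (fun j => lt_of_le_of_lt (hs2 j) hlt))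
  · intro s hs
    by_contra hne
    have hX1 : 1 ≤ X := by
      have := hs 0
      omega
    exact hXmin (X - 1) (by omega) ⟨s, fun j => by have := hs j; omega, hne⟩

end MP60829e.SE
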