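import Mathlib
import Pool.Agent.Lib.MP_60829e_nt.SE.SixCoef

/-! The analytic estimate. -/

namespace MP60829e.SE

open Finset NumberField Pool.Agent.Lib.MP_60829e_nt.Bk

variable {K : Type} [Field K] [NumberField K]

theorem FF_differentiable (σ : K →+* ℂ) (x : Fin 2 → ℂ) {L : ℕ} (p : (Fin 2 → Fin L) → 𝓞 K) :
    Differentiable ℂ (FF σ x p) := by
  unfold FF
  fun_prop

theorem ww_bound (x : Fin 2 → ℂ) {L : ℕ} (k : Fin 2 → Fin L) :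
    ‖ww x k‖ ≤ L * (‖x 0‖ + ‖x 1‖) := by
  unfold ww
  refine (norm_sum_le _ _).trans ?_
  rw [Fin.sum_univ_two]
  have h1 : ∀ i, ‖((k i : ℕ) : ℂ) * x i‖ ≤ L * ‖x i‖ := by
    intro i
    rw [norm_mul, Complex.norm_natCast]
    refine mul_le_mul_of_nonneg_right ?_ (norm_nonneg _)
    exact_mod_cast (k i).2.le
  have h2 := h1 0
  have h3 := h1 1
  rw [mul_add]
  exact add_le_add h2 h3

theorem zz_bound (y : Fin 3 → ℂ) (s : Fin 3 → ℕ) (X : ℕ) (hs : ∀ j, s j ≤ X) :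
    ‖zz y s‖ ≤ X * (‖y 0‖ + ‖y 1‖ + ‖y 2‖ + 1) := by
  unfold zz
  refine (norm_sum_le _ _).trans ?_
  rw [Fin.sum_univ_three]
  have h1 : ∀ j, ‖(s j : ℂ) * y j‖ ≤ X * ‖y j‖ := by
    intro j
    rw [norm_mul, Complex.norm_natCast]
    refine mul_le_mul_of_nonneg_right ?_ (norm_nonneg _)
    exact_mod_cast hs j
  have h2 := h1 0
  have h3 := h1 1
  have h4 := h1 2
  have h5 : (0:ℝ) ≤ X := Nat.cast_nonneg _
  have e : (X : ℝ) * (‖y 0‖ + ‖y 1‖ + ‖y 2‖ + 1) =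
    X * ‖y 0‖ + X * ‖y 1‖ + X * ‖y 2‖ + X := by ring
  rw [e]
  linarith

theorem FF_bound (σ : K →+* ℂ) (x : Fin 2 → ℂ) {L : ℕ} (p : (Fin 2 → Fin L) → 𝓞 K) {P : ℝ}
    (hP : ∀ k, ‖σ (p k : K)‖ ≤ P) (z : ℂ) :
    ‖FF σ x p z‖ ≤ (L : ℝ) ^ 2 * (P * Real.exp (L * (‖x 0‖ + ‖x 1‖) * ‖z‖)) := by
  unfold FF
  refine (norm_sum_le _ _).trans ?_
  have h1 : ∀ k ∈ (univ : Finset (Fin 2 → Fin L)), ‖σ (p k : K) * Complex.exp (ww x k * z)‖ ≤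
      P * Real.exp (L * (‖x 0‖ + ‖x 1‖) * ‖z‖) := by
    intro k _
    rw [norm_mul]
    have hP0 : 0 ≤ P := (norm_nonneg _).trans (hP k)
    refine mul_le_mul (hP k) ?_ (norm_nonneg _) hP0
    refine (Complex.norm_exp_le_exp_norm _).trans ?_
    apply Real.exp_le_exp.mpr
    rw [norm_mul]
    exact mul_le_mul_of_nonneg_right (ww_bound x k) (norm_nonneg _)
  refine (sum_le_card_nsmul _ _ _ h1).trans ?_
  rw [nsmul_eq_mul, card_univ, card_fun2, Nat.cast_pow]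

theorem points_card {y : Fin 3 → ℂ} (hy : LinearIndependent ℚ y) (X : ℕ) :
    #(univ.image (fun s : Fin 3 → Fin X => zz y (fun j => (s j : ℕ)))) = X ^ 3 := by
  rw [card_image_of_injective, card_univ, card_fun3]
  intro s t h
  have h1 := zz_inj hy h
  funext j
  exact Fin.ext (congrFun h1 j)

/-- the upper bound for the first nonvanishing value -/
theorem upper (σ : K →+* ℂ) {x : Fin 2 → ℂ} {y : Fin 3 → ℂ}
    (hy : LinearIndependent ℚ y) (α : Fin 2 × Fin 3 → K)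
    (hα : ∀ i, σ (α i) = Complex.exp (x i.1 * y i.2)) {L : ℕ} (p : (Fin 2 → Fin L) → 𝓞 K)
    {P : ℝ} (hP0 : 0 ≤ P) (hP : ∀ k, ‖σ (p k : K)‖ ≤ P) {X : ℕ} (hX1 : 1 ≤ X)
    (hX : ∀ s : Fin 3 → ℕ, (∀ j, s j < X) → xi α p s = 0) (s : Fin 3 → ℕ) (hs : ∀ j, s j ≤ X) :
    ‖σ (xi α p s)‖ ≤ (1 / 8) ^ (X ^ 3) * ((L : ℝ) ^ 2 *
      (P * Real.exp (L * (‖x 0‖ + ‖x 1‖) *
        (17 * (X * (‖y 0‖ + ‖y 1‖ + ‖y 2‖ + 1)))))) := by
  classical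
  have hXr : (1:ℝ) ≤ X := by exact_mod_cast hX1
  obtain ⟨r, hr⟩ : ∃ r : ℝ, r = X * (‖y 0‖ + ‖y 1‖ + ‖y 2‖ + 1) := ⟨_, rfl⟩
  have hrpos : 0 < r := by rw [hr]; positivity
  rw [← hr]
  have hsch := schwarz (FF_differentiable σ x p)
    (univ.image (fun s : Fin 3 → Fin X => zz y (fun j => (s j : ℕ)))) (r := r) (R := 17 * r)
    (M := (L : ℝ) ^ 2 * (P * Real.exp (L * (‖x 0‖ + ‖x 1‖) * (17 * r)))) hrpos (by linarith) (by
      intro w hw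
      rw [mem_image] at hw
      obtain ⟨s, _, rfl⟩ := hw
      rw [← xi_FF σ α hα, hX _ (fun j => (s j).2), map_zero]) (by
      intro w hw
      rw [mem_image] at hw
      obtain ⟨s, _, rfl⟩ := hw
      rw [hr]
      exact zz_bound y _ X (fun j => (s j).2.le)) (by
      intro z hz
      rw [← hz]
      exact FF_bound σ x p hP z) (zz y s) (by rw [hr]; exact zz_bound y s X hs)
  have hratio : 2 * r / (17 * r - r) = 1 / 8 := by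
    have e : 17 * r - r = 16 * r := by ring
    rw [e, div_eq_div_iff (by positivity) (by norm_num)]
    ring
  rw [hratio, points_card hy, ← xi_FF σ α hα] at hsch
  exact hsch

/-- the bound for the conjugates -/
theorem conj_bound (α : Fin 2 × Fin 3 → K) {C : ℝ} (hC1 : 1 ≤ C)
    (hC : ∀ i, ∀ φ : K →+* ℂ, ‖φ (α i)‖ ≤ C) (hC' : ∀ i, ∀ φ : K →+* ℂ, ‖φ (α i)⁻¹‖ ≤ C)
    {L : ℕ} (p : (Fin 2 → Fin L) → 𝓞 K) {P : ℝ}
    (hP : ∀ k, ∀ φ : K →+* ℂ, ‖φ (p k : K)‖ ≤ P) {X : ℕ} (s : Fin 3 → ℕ) (hs : ∀ j, s j ≤ X)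
    (φ : K →+* ℂ) : ‖φ (xi α p s)‖ ≤ (L : ℝ) ^ 2 * (C ^ (6 * (L * X)) * P) := by
  unfold xi
  rw [map_sum]
  refine (norm_sum_le _ _).trans ?_
  have h1 : ∀ k ∈ (univ : Finset (Fin 2 → Fin L)), ‖φ (mon α k s * (p k : K))‖ ≤
      C ^ (6 * (L * X)) * P := by
    intro k _
    rw [map_mul, norm_mul]
    exact mul_le_mul (mon_norm α hC1 hC hC' k s X hs φ) (hP k φ) (norm_nonneg _) (by positivity)
  refine (sum_le_card_nsmul _ _ _ h1).trans ?_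
  rw [nsmul_eq_mul, card_univ, card_fun2, Nat.cast_pow]

theorem xi_int (α : Fin 2 × Fin 3 → K) {Q : ℕ} (hQ : ∀ i, IsIntegral ℤ ((Q : K) * α i))
    (hQ' : ∀ i, IsIntegral ℤ ((Q : K) * (α i)⁻¹)) {L : ℕ} (p : (Fin 2 → Fin L) → 𝓞 K)
    (s : Fin 3 → ℕ) (X : ℕ) (hs : ∀ j, s j ≤ X) :
    IsIntegral ℤ (((Q ^ (6 * (L * X)) : ℕ) : K) * xi α p s) := by
  unfold xi
  rw [mul_sum]
  apply IsIntegral.sum
  intro k _
  rw [← mul_assoc]
  exact (mon_int α hQ hQ' k s X hs).mul (p k).2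

end MP60829e.SE
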