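import Mathlib

/-! The numerical comparison in the six exponentials theorem. -/

namespace MP60829e.SE

theorem six_num (c C q X0 Y0 : ℝ) (d : ℕ) (hc : 1 ≤ c) (hC : 1 ≤ C) (hq : 1 ≤ q)
    (hX0 : 0 ≤ X0) (hY0 : 0 ≤ Y0) : ∃ N : ℕ, 1 ≤ N ∧ ∀ S L X : ℕ, S = 2 * N ^ 2 →
      L = 4 * N ^ 3 → S ≤ X → ∀ P u H : ℝ,
      P = c * (c * (L : ℝ) ^ 2 * (q ^ (6 * (L * S)) * C ^ (6 * (L * S)))) →
      u = (1 / 8) ^ (X ^ 3) * ((L : ℝ) ^ 2 * (P * Real.exp (L * X0 * (17 * (X * Y0))))) →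
      H = (L : ℝ) ^ 2 * (C ^ (6 * (L * X)) * P) →
      (q ^ (6 * (L * X))) ^ d * u * H ^ (d - 1) < 1 := by
  obtain ⟨P0, hP0⟩ : ∃ P0 : ℝ, P0 = c ^ 2 * 4 * (q ^ 6 * C ^ 6) := ⟨_, rfl⟩
  have hP0ge : 1 ≤ P0 := by
    have h1 : (1:ℝ) ≤ c ^ 2 := one_le_pow₀ hc
    have h2 : (1:ℝ) ≤ q ^ 6 := one_le_pow₀ hq
    have h3 : (1:ℝ) ≤ C ^ 6 := one_le_pow₀ hC
    rw [hP0]
    exact one_le_mul_of_one_le_of_one_le (by linarith) (one_le_mul_of_one_le_of_one_le h2 h3)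
  obtain ⟨H0, hH0⟩ : ∃ H0 : ℝ, H0 = 4 * (C ^ 6 * P0) := ⟨_, rfl⟩
  have hH0pos : 0 < H0 := by rw [hH0]; positivity
  obtain ⟨G, hG⟩ : ∃ G : ℝ, G = (q ^ 6) ^ d * (4 * (P0 * Real.exp (17 * (X0 * Y0)))) *
      H0 ^ (d - 1) := ⟨_, rfl⟩
  have hGpos : 0 < G := by rw [hG]; positivity
  obtain ⟨N0, hN0⟩ := pow_unbounded_of_one_lt G (by norm_num : (1:ℝ) < 8)
  refine ⟨N0 + 1, by omega, ?_⟩
  intro S L X hS hL hSX P u H hP hu hH
  obtain ⟨N, hN⟩ : ∃ N : ℕ, N = N0 + 1 := ⟨_, rfl⟩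
  rw [← hN] at hS hL
  have hNpos : 1 ≤ N := by omega
  have hN8 : G < 8 ^ N := by
    refine hN0.trans_le ?_
    rw [hN]
    exact pow_le_pow_right₀ (by norm_num) (Nat.le_succ _)
  have hN2 : 1 ≤ N ^ 2 := Nat.one_le_pow _ _ hNpos
  have hN3 : 1 ≤ N ^ 3 := Nat.one_le_pow _ _ hNpos
  have hSpos : 1 ≤ S := by omega
  have hLpos : 1 ≤ L := by omega
  have hXpos : 1 ≤ X := hSpos.trans hSX
  obtain ⟨T, hT⟩ : ∃ T : ℕ, T = L * X := ⟨_, rfl⟩
  have hTpos : 1 ≤ T := by rw [hT]; exact Nat.mul_pos hLpos hXpos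
  have hL4 : (L : ℝ) ^ 2 ≤ 4 ^ T := by
    have h1 : (L : ℝ) ≤ 2 ^ L := by exact_mod_cast (Nat.lt_two_pow_self (n := L)).le
    have h2 : (2:ℝ) ^ L ≤ 2 ^ T :=
      pow_le_pow_right₀ (by norm_num) (by rw [hT]; exact Nat.le_mul_of_pos_right _ hXpos)
    calc (L : ℝ) ^ 2 ≤ (2 ^ T) ^ 2 := pow_le_pow_left₀ (Nat.cast_nonneg _) (h1.trans h2) 2
      _ = 4 ^ T := by rw [← pow_mul, mul_comm, pow_mul]; norm_num
  have hPT : P ≤ P0 ^ T := by
    have h1 : c ^ 2 ≤ (c ^ 2) ^ T := le_self_pow₀ (one_le_pow₀ hc) (by omega)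
    have hE : 6 * (L * S) ≤ 6 * T := by
      rw [hT]
      exact Nat.mul_le_mul_left _ (Nat.mul_le_mul_left _ hSX)
    have h2 : q ^ (6 * (L * S)) ≤ (q ^ 6) ^ T := by
      rw [← pow_mul]; exact pow_le_pow_right₀ hq hE
    have h3 : C ^ (6 * (L * S)) ≤ (C ^ 6) ^ T := by
      rw [← pow_mul]; exact pow_le_pow_right₀ hC hE
    rw [hP]
    calc c * (c * (L : ℝ) ^ 2 * (q ^ (6 * (L * S)) * C ^ (6 * (L * S))))
        = c ^ 2 * (L : ℝ) ^ 2 * (q ^ (6 * (L * S)) * C ^ (6 * (L * S))) := by ring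
      _ ≤ (c ^ 2) ^ T * 4 ^ T * ((q ^ 6) ^ T * (C ^ 6) ^ T) := by
          refine mul_le_mul (mul_le_mul h1 hL4 (by positivity) (by positivity))
            (mul_le_mul h2 h3 (by positivity) (by positivity)) (by positivity) (by positivity)
      _ = P0 ^ T := by rw [hP0, mul_pow, mul_pow, mul_pow]
  have hPnn : 0 ≤ P := by rw [hP]; positivity
  have hexp : Real.exp (L * X0 * (17 * (X * Y0))) = Real.exp (17 * (X0 * Y0)) ^ T := by
    rw [← Real.exp_nat_mul]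
    congr 1
    rw [hT]
    push_cast
    ring
  have hX3 : N * T ≤ X ^ 3 := by
    have h1 : N * L ≤ X ^ 2 := by
      calc N * L = S ^ 2 := by rw [hL, hS]; ring
        _ ≤ X ^ 2 := Nat.pow_le_pow_left hSX 2
    calc N * T = (N * L) * X := by rw [hT]; ring
      _ ≤ X ^ 2 * X := Nat.mul_le_mul_right _ h1
      _ = X ^ 3 := by ring
  have h8 : ((1:ℝ) / 8) ^ (X ^ 3) ≤ ((1 / 8) ^ N) ^ T := by
    rw [← pow_mul]
    exact pow_le_pow_of_le_one (by norm_num) (by norm_num) hX3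
  have huT : u ≤ ((1 / 8) ^ N) ^ T * (4 * (P0 * Real.exp (17 * (X0 * Y0)))) ^ T := by
    rw [hu, hexp, mul_pow, mul_pow]
    refine mul_le_mul h8 (mul_le_mul hL4 (mul_le_mul_of_nonneg_right hPT (by positivity))
      (by positivity) (by positivity)) (by positivity) (by positivity)
  have hHT : H ≤ H0 ^ T := by
    rw [hH, hH0, mul_pow, mul_pow, ← hT, pow_mul C 6 T]
    refine mul_le_mul hL4 (mul_le_mul_of_nonneg_left hPT (by positivity)) (by positivity)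
      (by positivity)
  have hHnn : 0 ≤ H := by rw [hH]; positivity
  have hunn : 0 ≤ u := by rw [hu]; positivity
  have hmain : (q ^ (6 * (L * X))) ^ d * u * H ^ (d - 1) ≤ ((1 / 8) ^ N * G) ^ T := by
    have e1 : (q ^ (6 * (L * X))) ^ d = ((q ^ 6) ^ d) ^ T := by
      rw [← hT, ← pow_mul, ← pow_mul, ← pow_mul]
      congr 1
      ring
    have e2 : (H0 ^ T) ^ (d - 1) = (H0 ^ (d - 1)) ^ T := by
      rw [← pow_mul, ← pow_mul, mul_comm]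
    calc (q ^ (6 * (L * X))) ^ d * u * H ^ (d - 1)
        ≤ ((q ^ 6) ^ d) ^ T * (((1 / 8) ^ N) ^ T * (4 * (P0 * Real.exp (17 * (X0 * Y0)))) ^ T) *
            (H0 ^ (d - 1)) ^ T := by
          rw [e1, ← e2]
          refine mul_le_mul (mul_le_mul_of_nonneg_left huT (by positivity))
            (pow_le_pow_left₀ hHnn hHT _) (by positivity) (by positivity)
      _ = ((1 / 8) ^ N * G) ^ T := by
          rw [← mul_pow, ← mul_pow, ← mul_pow, hG]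
          congr 1
          ring
  refine lt_of_le_of_lt hmain ?_
  have hlt : (1 / 8) ^ N * G < 1 := by
    rw [one_div, inv_pow, inv_mul_lt_iff₀ (by positivity), mul_one]
    exact hN8
  exact pow_lt_one₀ (by positivity) hlt (by omega)

end MP60829e.SE
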