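import Mathlib
import Pool.Agent.Lib.MP_60829e_nt.SE.SixAna
import Pool.Agent.Lib.MP_60829e_nt.SE.SixNum

/-! The six exponentials theorem. -/

namespace MP60829e.SE

open Finset NumberField Pool.Agent.Lib.MP_60829e_nt.Bk

/-- the six exponentials theorem with values in a number field -/
theorem six_field {K : Type} [Field K] [NumberField K] (σ : K →+* ℂ) {x : Fin 2 → ℂ}
    {y : Fin 3 → ℂ} (hx : LinearIndependent ℚ x)
    (hy : LinearIndependent ℚ y) (α : Fin 2 × Fin 3 → K)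
    (hα : ∀ i, σ (α i) = Complex.exp (x i.1 * y i.2)) : False := by
  obtain ⟨c, hc1, hcoef⟩ := exists_coef K
  obtain ⟨Q, C, hQ, hC, hQi, hQi', hCi, hCi'⟩ := constants α
  have hQr : (1:ℝ) ≤ Q := by exact_mod_cast hQ
  obtain ⟨N, hN, hnum⟩ := six_num c C Q (‖x 0‖ + ‖x 1‖) (‖y 0‖ + ‖y 1‖ + ‖y 2‖ + 1)
    (Module.finrank ℚ K) hc1 hC hQr (by positivity) (by positivity)
  obtain ⟨S, hS⟩ : ∃ S : ℕ, S = 2 * N ^ 2 := ⟨_, rfl⟩
  obtain ⟨L, hL⟩ : ∃ L : ℕ, L = 4 * N ^ 3 := ⟨_, rfl⟩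
  have hS1 : 1 ≤ S := by
    have := Nat.one_le_pow 2 N hN
    omega
  obtain ⟨p, hp0, hpz, hpb⟩ := hcoef α Q C hQ hC hQi hQi' hCi hCi' S L hS1 (by
    rw [hS, hL]
    exact le_of_eq (by ring))
  obtain ⟨X, hSX, hXz, s, hs, hsne⟩ := exists_first σ hx hy α hα p hp0 hpz
  have hX1 : 1 ≤ X := hS1.trans hSX
  have h1 := hnum S L X hS hL hSX _ _ _ rfl rfl rfl
  have hup := upper σ hy α hα p (by positivity) (fun k => hpb k σ) hX1 hXz s hs
  have hconj := conj_bound α hC hCi hCi' p hpb s hs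
  have hliou := liouville σ (xi α p s) hsne (Q ^ (6 * (L * X))) (Nat.one_le_pow _ _ hQ)
    (xi_int α hQi hQi' p s X hs) hconj
  rw [Nat.cast_pow] at hliou
  refine absurd (hliou.trans ?_) (not_le.mpr h1)
  refine mul_le_mul_of_nonneg_right (mul_le_mul_of_nonneg_left hup (by positivity)) ?_
  positivity

/-- **The six exponentials theorem.** -/
theorem six (x : Fin 2 → ℂ) (y : Fin 3 → ℂ) (hx : LinearIndependent ℚ x)
    (hy : LinearIndependent ℚ y) : ∃ i j, ¬ IsAlgebraic ℚ (Complex.exp (x i * y j)) := by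
  by_contra hcon
  push Not at hcon
  have halg : ∀ i : Fin 2 × Fin 3, IsAlgebraic ℚ (Complex.exp (x i.1 * y i.2)) :=
    fun i => hcon i.1 i.2
  let R : Set ℂ := Set.range (fun i : Fin 2 × Fin 3 => Complex.exp (x i.1 * y i.2))
  have hRint : ∀ z ∈ R, IsIntegral ℚ z := by
    rintro z ⟨i, rfl⟩
    exact (halg i).isIntegral
  haveI : Finite R := Set.finite_range _
  haveI hfd : FiniteDimensional ℚ (IntermediateField.adjoin ℚ R) :=
    IntermediateField.finiteDimensional_adjoin hRint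
  haveI : NumberField (IntermediateField.adjoin ℚ R) := ⟨⟩
  exact six_field (K := IntermediateField.adjoin ℚ R)
    (algebraMap (IntermediateField.adjoin ℚ R) ℂ) hx hy
    (fun i => ⟨Complex.exp (x i.1 * y i.2), IntermediateField.subset_adjoin ℚ R ⟨i, rfl⟩⟩)
    (fun i => rfl)

end MP60829e.SE
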