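import Mathlib
import Pool.Agent.Lib.MP_60829e_nt.SE.Defs
import Pool.Agent.Lib.MP_60829e_nt.SE.Six

/-! Consequence of the six exponentials theorem: multiplication by an irrational number has large
rank modulo `Lg`. -/

open Module

namespace MP60829e.SE

/-- The elements `z` of a subspace `Z` of `Lg` with `x z` in `Lg` form a space of dimension at most
two, if `x` is not rational.
PROOF. Otherwise three `ℚ`-independent elements `y 0, y 1, y 2` of `Z` have `x * y j ∈ Lg`, and
`y j ∈ Lg`; apply `six` to `![1, x]` (independent, as `x` is not rational) and `y`. -/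
theorem key_ker (Z : Submodule ℚ ℂ) [FiniteDimensional ℚ Z] (hZ : Z ≤ Lg) (x : ℂ)
    (hx : ∀ q : ℚ, x ≠ q) (h : ∀ z ∈ Z, x * z ∈ Lg) : finrank ℚ Z ≤ 2 := by
  by_contra hcon
  obtain ⟨f, hf⟩ := exists_linearIndependent_of_le_finrank (R := ℚ) (M := Z) (n := 3)
    (by omega)
  have hy : LinearIndependent ℚ (fun j => (f j : ℂ)) :=
    hf.map' Z.subtype Z.ker_subtype
  have hx' : LinearIndependent ℚ ![(1 : ℂ), x] := by
    rw [LinearIndependent.pair_iff' one_ne_zero]
    intro q hq
    apply hx q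
    rw [← hq, Rat.smul_def, mul_one]
  obtain ⟨i, j, hij⟩ := six ![(1 : ℂ), x] (fun j => (f j : ℂ)) hx' hy
  apply hij
  fin_cases i
  · have := hZ (f j).2
    rw [mem_Lg] at this
    simpa using this
  · have := h _ (f j).2
    rw [mem_Lg] at this
    simpa using this

/-- PROOF. Consider the linear map `Z → F`, `z ↦ cl (x * z)`; by `key_ker` (applied to the image in
`ℂ` of its kernel) the kernel has dimension at most `2`; rank-nullity. -/
theorem key_rank (Z : Submodule ℚ ℂ) [FiniteDimensional ℚ Z] (hZ : Z ≤ Lg) (x : ℂ)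
    (hx : ∀ q : ℚ, x ≠ q) (F : Submodule ℚ (ℂ ⧸ Lg)) [FiniteDimensional ℚ F]
    (h : ∀ z ∈ Z, cl (x * z) ∈ F) : finrank ℚ Z ≤ 2 + finrank ℚ F := by
  set φ : Z →ₗ[ℚ] F := ((cl ∘ₗ (LinearMap.mulLeft ℚ x)) ∘ₗ Z.subtype).codRestrict F
    (fun z => h z z.2) with hφ
  have h1 := φ.finrank_range_add_finrank_ker
  have h2 : finrank ℚ (LinearMap.range φ) ≤ finrank ℚ F := Submodule.finrank_le _
  have h3 : finrank ℚ (LinearMap.ker φ) ≤ 2 := by
    set K : Submodule ℚ ℂ := (LinearMap.ker φ).map Z.subtype with hK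
    have h4 : finrank ℚ K = finrank ℚ (LinearMap.ker φ) :=
      (Submodule.equivMapOfInjective Z.subtype Z.injective_subtype _).finrank_eq.symm
    rw [← h4]
    refine key_ker K ?_ x hx ?_
    · rintro z ⟨w, _, rfl⟩
      exact hZ w.2
    · rintro z ⟨w, hw, rfl⟩
      have h5 : φ w = 0 := hw
      have h6 : cl (x * (w : ℂ)) = 0 := congrArg Subtype.val h5
      exact cl_eq_zero.1 h6
  omega

end MP60829e.SE
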