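import Mathlib

/-! Differences of functions on finite sets. -/

open Finset Polynomial

namespace MP60829e.SE

variable {J : Type} [Fintype J] [DecidableEq J]

/-- The mixed difference over the set `B`. -/
def dl {M : Type} [AddCommGroup M] (g : Finset J → M) (B : Finset J) : M :=
  ∑ A ∈ B.powerset, (-1 : ℤ) ^ (B.card - A.card) • g A

omit [Fintype J] in
private theorem Diff_insert {M : Type} [AddCommGroup M] (g : Finset J → M) {j : J} {B : Finset J}
    (hj : j ∉ B) : dl g (insert j B) = dl (fun A => g (insert j A)) B - dl g B := by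
  unfold dl
  rw [Finset.sum_powerset_insert hj, Finset.card_insert_of_notMem hj, sub_eq_add_neg, add_comm,
    ← Finset.sum_neg_distrib]
  congr 1
  · refine Finset.sum_congr rfl fun A hA => ?_
    have hA' : j ∉ A := fun h => hj (Finset.mem_powerset.1 hA h)
    rw [Finset.card_insert_of_notMem hA', Nat.add_sub_add_right]
  · refine Finset.sum_congr rfl fun A hA => ?_
    have hc : A.card ≤ B.card := Finset.card_le_card (Finset.mem_powerset.1 hA)
    rw [Nat.succ_sub hc, pow_succ, mul_neg_one, neg_smul]

omit [Fintype J] in
private theorem Diff_congr {M : Type} [AddCommGroup M] {g h : Finset J → M} {B : Finset J}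
    (H : ∀ A ⊆ B, g A = h A) : dl g B = dl h B := by
  unfold dl
  refine Finset.sum_congr rfl fun A hA => ?_
  rw [H A (Finset.mem_powerset.1 hA)]

omit [Fintype J] in
private theorem Diff_sub {M : Type} [AddCommGroup M] (g h : Finset J → M) (B : Finset J) :
    dl g B - dl h B = dl (fun A => g A - h A) B := by
  unfold dl
  rw [← Finset.sum_sub_distrib]
  refine Finset.sum_congr rfl fun A _ => ?_
  rw [smul_sub]

/-- PROOF: inclusion-exclusion (e.g. `Finset.sum_powerset_neg_one_pow_card` or induction on `A`). -/
theorem sum_dl {M : Type} [AddCommGroup M] (g : Finset J → M) (A : Finset J) :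
    g A = ∑ B ∈ A.powerset, dl g B := by
  induction A using Finset.induction_on generalizing g with
  | empty => simp [dl]
  | insert j A hj ih =>
    rw [Finset.sum_powerset_insert hj, ← Finset.sum_add_distrib,
      ih (fun A => g (insert j A))]
    refine Finset.sum_congr rfl fun B hB => ?_
    have hB' : j ∉ B := fun h => hj (Finset.mem_powerset.1 hB h)
    rw [Diff_insert g hB']
    abel

/-- PROOF: linear maps commute with sums. -/
theorem dl_map {M N : Type} [AddCommGroup M] [AddCommGroup N] (φ : M →+ N) (g : Finset J → M)
    (B : Finset J) : dl (fun A => φ (g A)) B = φ (dl g B) := by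
  unfold dl
  rw [map_sum]
  refine Finset.sum_congr rfl fun A _ => ?_
  rw [map_zsmul]

private theorem Diff_taylor (f : ℂ[X]) (c : ℂ) {d : ℕ} (hd : f.natDegree ≤ d + 1) :
    (taylor c f - f).natDegree ≤ d ∧
      (taylor c f - f).coeff d = ((d : ℂ) + 1) * f.coeff (d + 1) * c := by
  constructor
  · rw [natDegree_le_iff_coeff_eq_zero]
    intro n hn
    have h1 : (hasseDeriv n f).natDegree < 1 := by
      have := natDegree_hasseDeriv_le f n
      omega
    rw [coeff_sub, taylor_coeff, eval_eq_sum_range' h1]
    simp [hasseDeriv_coeff]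
  · have h1 : (hasseDeriv d f).natDegree < 2 := by
      have := natDegree_hasseDeriv_le f d
      omega
    rw [coeff_sub, taylor_coeff, eval_eq_sum_range' h1]
    simp only [Finset.sum_range_succ, Finset.sum_range_zero, hasseDeriv_coeff, zero_add, pow_zero,
      mul_one, pow_one, Nat.choose_self, Nat.cast_one, one_mul]
    rw [show 1 + d = d + 1 from add_comm 1 d, Nat.choose_succ_self_right]
    push_cast
    ring

/-- The mixed difference of a polynomial.
PROOF by induction on `B`, for all `f` and `w`: for `j ∉ B`,
`dl (A ↦ f (w + ∑_A η)) (insert j B) = dl (A ↦ g (w + ∑_A η)) B` with `g = f (X + η j) - f`, and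
`g` has degree at most `natDegree f - 1` (`g = 0` if `f` is constant) with coefficient of
`X ^ (d - 1)` equal to `d * coeff f d * η j` if `natDegree f ≤ d`, `1 ≤ d`. It is best to prove:
`natDegree f ≤ d` and `B.card = d` imply `dl = d! * coeff f d * ∏ η`, and `natDegree f < B.card`
implies `dl = 0` (the second follows from the first with `d = B.card`). -/
theorem dl_poly (f : ℂ[X]) (w : ℂ) (η : J → ℂ) (B : Finset J) (hd : f.natDegree ≤ B.card) :
    dl (fun A => f.eval (w + ∑ j ∈ A, η j)) B =
      (B.card.factorial : ℂ) * f.coeff B.card * ∏ j ∈ B, η j := by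
  induction B using Finset.induction_on generalizing f w with
  | empty =>
    have h0 : f = C (f.coeff 0) := eq_C_of_natDegree_le_zero (by simpa using hd)
    rw [h0]
    simp [dl]
  | insert j B hj ih =>
    rw [Finset.card_insert_of_notMem hj] at hd ⊢
    obtain ⟨h1, h2⟩ := Diff_taylor f (η j) hd
    rw [Diff_insert _ hj, Diff_sub, Finset.prod_insert hj]
    have h3 : dl (fun A => f.eval (w + ∑ i ∈ insert j A, η i) - f.eval (w + ∑ i ∈ A, η i)) B =
        dl (fun A => (taylor (η j) f - f).eval (w + ∑ i ∈ A, η i)) B := by
      refine Diff_congr fun A hA => ?_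
      have hA' : j ∉ A := fun h => hj (hA h)
      rw [eval_sub, taylor_eval, Finset.sum_insert hA']
      congr 2
      ring
    rw [h3, ih _ _ h1, h2, Nat.factorial_succ]
    push_cast
    ring

end MP60829e.SE
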