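import Mathlib
import Pool.Agent.Lib.MP_60829e_nt.SE.Diff

/-! Leibniz formula for differences of functions on finite sets. -/

open Finset Polynomial

namespace MP60829e.SE

variable {J : Type} [Fintype J] [DecidableEq J]

private theorem diffProd_coef (U : Finset J) :
    ∑ A ∈ (univ : Finset J).powerset,
      (if U ⊆ A then (-1 : ℤ) ^ ((univ : Finset J).card - A.card) else 0) =
      if U = univ then 1 else 0 := by
  rw [← Finset.sum_filter]
  have h1 : ∑ A ∈ (univ : Finset J).powerset.filter (fun A => U ⊆ A),
      (-1 : ℤ) ^ ((univ : Finset J).card - A.card) = ∑ C ∈ (Uᶜ).powerset, (-1 : ℤ) ^ C.card := by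
    refine Finset.sum_nbij' (fun A => Aᶜ) (fun A => Aᶜ) ?_ ?_ ?_ ?_ ?_
    · intro A hA
      rw [Finset.mem_filter] at hA
      rw [Finset.mem_powerset]
      exact Finset.compl_subset_compl.mpr hA.2
    · intro C hC
      rw [Finset.mem_powerset] at hC
      rw [Finset.mem_filter]
      refine ⟨Finset.mem_powerset.mpr (Finset.subset_univ _), ?_⟩
      rw [← Finset.compl_subset_compl, compl_compl]
      exact hC
    · intro A _
      exact compl_compl A
    · intro A _
      exact compl_compl A
    · intro A _
      rw [Finset.card_compl, Finset.card_univ]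
  rw [h1, Finset.sum_powerset_neg_one_pow_card]
  by_cases h : U = univ
  · rw [if_pos h, if_pos (by rw [h, Finset.compl_univ])]
  · rw [if_neg h, if_neg]
    intro h2
    apply h
    rw [← Finset.compl_eq_empty_iff]
    exact h2

private theorem diffProd_exp {m : ℕ} (g : Fin m → Finset J → ℚ) (A : Finset J) :
    ∏ a, g a A = ∑ B : Fin m → Finset J,
      if univ.biUnion B ⊆ A then ∏ a, dl (g a) (B a) else 0 := by
  have h1 : ∀ a : Fin m, g a A = ∑ B ∈ A.powerset, dl (g a) B := fun a => sum_dl (g a) A
  rw [Finset.prod_congr rfl (fun a _ => h1 a), Finset.prod_univ_sum, ← Finset.sum_filter]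
  apply Finset.sum_congr _ (fun _ _ => rfl)
  ext B
  rw [Fintype.mem_piFinset, Finset.mem_filter]
  simp only [Finset.mem_powerset, Finset.mem_univ, true_and]
  rw [Finset.biUnion_subset]
  simp

/-- The Leibniz formula for the top difference of a product.
PROOF: `g a A = ∑_{B ⊆ A} dl (g a) B` (`sum_dl`), multiply out (`Finset.prod_univ_sum` or
`Finset.prod_sum`), exchange the sums: the coefficient of `∏ a, dl (g a) (B a)` is
`∑_{A ⊇ ⋃ B a} (-1) ^ (card J - card A)`, which is `1` if `⋃ B a = univ` and `0` otherwise. -/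
theorem dl_prod {m : ℕ} (g : Fin m → Finset J → ℚ) :
    dl (fun A => ∏ a, g a A) (univ : Finset J) =
      ∑ B ∈ (univ : Finset (Fin m → Finset J)).filter (fun B => univ.biUnion B = univ),
        ∏ a, dl (g a) (B a) := by
  unfold dl
  simp_rw [diffProd_exp g]
  simp_rw [Finset.smul_sum]
  rw [Finset.sum_comm, Finset.sum_filter]
  apply Finset.sum_congr rfl
  intro B _
  have h1 : ∀ A ∈ (univ : Finset J).powerset,
      ((-1 : ℤ) ^ ((univ : Finset J).card - A.card) •
        (if univ.biUnion B ⊆ A then ∏ a, dl (g a) (B a) else 0) : ℚ) =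
      (if univ.biUnion B ⊆ A then (-1 : ℤ) ^ ((univ : Finset J).card - A.card) else 0) •
        (∏ a, dl (g a) (B a)) := by
    intro A _
    split_ifs <;> simp
  rw [Finset.sum_congr rfl h1, ← Finset.sum_smul, diffProd_coef]
  split_ifs with h
  · rw [one_smul]
    rfl
  · rw [zero_smul]

/-- If the differences of `g a` over sets of more than `d a` elements vanish and `∑ d a = card J`
then only ordered partitions into sets with `d a` elements contribute.
PROOF: `dl_prod`; a term with `card (B a) ≤ d a` for all `a` and `⋃ B a = univ` has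
`card J ≤ ∑ card (B a) ≤ ∑ d a = card J`, so `card (B a) = d a`; the other terms vanish. -/
theorem dl_prod_part {m : ℕ} (g : Fin m → Finset J → ℚ) (d : Fin m → ℕ)
    (hd : ∑ a, d a = Fintype.card J) (hg : ∀ a B, d a < B.card → dl (g a) B = 0) :
    dl (fun A => ∏ a, g a A) (univ : Finset J) =
      ∑ B ∈ (univ : Finset (Fin m → Finset J)).filter
        (fun B => univ.biUnion B = univ ∧ ∀ a, (B a).card = d a), ∏ a, dl (g a) (B a) := by
  rw [dl_prod]
  symm
  apply Finset.sum_subset
  · intro B hB
    rw [Finset.mem_filter] at hB ⊢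
    exact ⟨hB.1, hB.2.1⟩
  · intro B hB hB2
    rw [Finset.mem_filter] at hB hB2
    have hU := hB.2
    by_cases hle : ∀ a, (B a).card ≤ d a
    · exfalso
      apply hB2
      refine ⟨hB.1, hU, ?_⟩
      have h1 : Fintype.card J ≤ ∑ a, (B a).card := by
        rw [← Finset.card_univ, ← hU]
        exact Finset.card_biUnion_le
      have h2 : ∑ a, (B a).card = ∑ a, d a :=
        le_antisymm (Finset.sum_le_sum fun a _ => hle a) (by rw [hd]; exact h1)
      intro a
      exact (Finset.sum_eq_sum_iff_of_le (fun a _ => hle a)).mp h2 a (Finset.mem_univ a)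
    · push Not at hle
      obtain ⟨a, ha⟩ := hle
      exact Finset.prod_eq_zero (Finset.mem_univ a) (hg a (B a) ha)

end MP60829e.SE
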