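import Mathlib
import Pool.Agent.Lib.MP_60829e_nt.SE.Defs
import Pool.Agent.Lib.MP_60829e_nt.Rate.GridBad

/-! Spaces of differences of logarithms of primes. -/

open Finset Module

namespace MP60829e.SE

/-- The differences of the logarithms of the primes of a row. -/
noncomputable def rowSet {t : ℕ} (q : Fin (t + 1) → ℕ) : Set ℂ :=
  Set.range fun a => ((Real.log (q a) : ℝ) : ℂ) - ((Real.log (q 0) : ℝ) : ℂ)

/-- PROOF: logarithms of distinct primes are `ℚ`-independent (unique factorisation; in the library:
`MP60829e.Rate.log_diff_indep` in Rate/GridBad.lean gives the independence of the differences over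
the algebraic numbers, restrict the scalars to `ℚ`). -/
theorem finrank_row {t : ℕ} (q : Fin (t + 1) → ℕ) (hq : ∀ a, (q a).Prime)
    (hinj : Function.Injective q) : finrank ℚ (Submodule.span ℚ (rowSet q)) = t := by
  let q' : Fin (t + 1) → Nat.Primes := fun a => ⟨q a, hq a⟩
  have hq' : Function.Injective q' := by
    intro a b h
    exact hinj (congrArg (fun x : Nat.Primes => (x : ℕ)) h)
  have h1 := MP60829e.Rate.log_diff_indep t q' hq'
  have h2 := h1.restrict_scalars (R := ℚ) (by
    intro a b h
    have h3 : algebraMap ℚ MP60829e.Dens.QA a = algebraMap ℚ MP60829e.Dens.QA b := by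
      rw [Algebra.algebraMap_eq_smul_one, Algebra.algebraMap_eq_smul_one]
      exact h
    exact (algebraMap ℚ MP60829e.Dens.QA).injective h3)
  have h3 : Submodule.span ℚ (rowSet q) = Submodule.span ℚ (Set.range fun a : Fin t =>
      ((Real.log (q' a.succ : ℕ) : ℝ) : ℂ) - ((Real.log (q' 0 : ℕ) : ℝ) : ℂ)) := by
    apply le_antisymm
    · rw [Submodule.span_le]
      rintro _ ⟨a, rfl⟩
      refine Fin.cases ?_ (fun b => ?_) a
      · simp only [sub_self]
        exact Submodule.zero_mem _
      · exact Submodule.subset_span ⟨b, rfl⟩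
    · rw [Submodule.span_le]
      rintro _ ⟨b, rfl⟩
      exact Submodule.subset_span ⟨b.succ, rfl⟩
  rw [h3, finrank_span_eq_card h2, Fintype.card_fin]

/-- PROOF: `log_mem_Lg`. -/
theorem row_le {t : ℕ} (q : Fin (t + 1) → ℕ) : Submodule.span ℚ (rowSet q) ≤ Lg := by
  rw [Submodule.span_le]
  rintro _ ⟨a, rfl⟩
  exact Lg.sub_mem (log_mem_Lg _) (log_mem_Lg _)

end MP60829e.SE
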