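import Mathlib
import Pool.Agent.Lib.MP_60829e_nt.SE.Defs

/-! Several variables: definitions. -/

open Finset MvPolynomial Module

namespace MP60829e.SE

/-- Trivial polynomials in `n` variables. -/
def TrivN {n : ℕ} (f : MvPolynomial (Fin n) ℂ) : Prop :=
  ∃ (a : ℂ) (r : Fin n → ℚ), f = C a + ∑ i, C (r i : ℂ) * X i

/-- The point with coordinates `log (b i)`. -/
noncomputable def lg {n : ℕ} (b : Fin n → ℕ) : Fin n → ℂ := fun i => ((Real.log (b i) : ℝ) : ℂ)

/-- The bad tuples. -/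
def BadN {n : ℕ} (V : Submodule ℚ (MvPolynomial (Fin n) ℂ)) (B : ℕ) : Set (Fin n → ℕ) :=
  {b | (∀ i, 1 ≤ b i ∧ b i ≤ B) ∧ ∃ f ∈ V, eval (lg b) f ∈ Lg ∧ ¬ TrivN f}

/-- The coefficient of `X 0 ^ k`, as a `ℚ`-linear map. -/
noncomputable def cf (n k : ℕ) : MvPolynomial (Fin (n + 1)) ℂ →ₗ[ℚ] MvPolynomial (Fin n) ℂ where
  toFun f := (finSuccEquiv ℂ n f).coeff k
  map_add' := by
    intro f g
    rw [map_add, Polynomial.coeff_add]
  map_smul' := by
    intro q f
    have h1 : q • f = (q : ℂ) • f := by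
      rw [Algebra.smul_def, Algebra.smul_def]; rfl
    have h2 : ∀ g : MvPolynomial (Fin n) ℂ, q • g = (q : ℂ) • g := by
      intro g
      rw [Algebra.smul_def, Algebra.smul_def]; rfl
    rw [h1, map_smul, Polynomial.coeff_smul, RingHom.id_apply, h2]

/-- Multiplication by a complex number. -/
noncomputable def mulC (n : ℕ) (c : ℂ) :
    MvPolynomial (Fin n) ℂ →ₗ[ℚ] MvPolynomial (Fin n) ℂ :=
  ((LinearMap.lsmul ℂ (MvPolynomial (Fin n) ℂ)) c).restrictScalars ℚ

/-- The derived space: coefficients of `X 0 ^ 0`, and `log 2`, `log 3` times the coefficients of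
`X 0 ^ k`, `1 ≤ k ≤ D`. -/
noncomputable def derV {n : ℕ} (V : Submodule ℚ (MvPolynomial (Fin (n + 1)) ℂ)) (D : ℕ) :
    Submodule ℚ (MvPolynomial (Fin n) ℂ) :=
  V.map (cf n 0) ⊔ ⨆ k ∈ Finset.Icc 1 D,
    (V.map (mulC n ((Real.log 2 : ℝ) : ℂ) ∘ₗ cf n k) ⊔
      V.map (mulC n ((Real.log 3 : ℝ) : ℂ) ∘ₗ cf n k))

/-- Specialisation of the variables `1 .. n` at `w`, a polynomial in the variable `X 0`. -/
noncomputable def sp {n : ℕ} (w : Fin n → ℂ) : MvPolynomial (Fin (n + 1)) ℂ →ₗ[ℚ] Polynomial ℂ where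
  toFun f := (finSuccEquiv ℂ n f).map (eval w)
  map_add' := by
    intro f g
    rw [map_add, Polynomial.map_add]
  map_smul' := by
    intro q f
    have h1 : q • f = C (q : ℂ) * f := by
      rw [Algebra.smul_def]; rfl
    rw [h1, map_mul, Polynomial.map_mul, RingHom.id_apply, rat_smul, finSuccEquiv_apply]
    simp

end MP60829e.SE
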