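import Mathlib
import Pool.Agent.Lib.MP_60829e_nt.SE.IndDefs

/-! Specialisation. -/

open Finset MvPolynomial Module

namespace MP60829e.SE

theorem sp_coeff {n : ℕ} (w : Fin n → ℂ) (f : MvPolynomial (Fin (n + 1)) ℂ) (k : ℕ) :
    (sp w f).coeff k = eval w (cf n k f) := by
  show (Polynomial.map (eval w) (finSuccEquiv ℂ n f)).coeff k = _
  rw [Polynomial.coeff_map]
  rfl

theorem sp_eval {n : ℕ} (b : Fin (n + 1) → ℕ) (f : MvPolynomial (Fin (n + 1)) ℂ) :
    (sp (lg (Fin.tail b)) f).eval ((Real.log (b 0) : ℝ) : ℂ) = eval (lg b) f := by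
  have h : lg b = Fin.cons ((Real.log (b 0) : ℝ) : ℂ) (lg (Fin.tail b)) := by
    funext i
    refine Fin.cases ?_ (fun j => ?_) i
    · simp [lg]
    · simp [lg, Fin.tail]
  rw [h, eval_eq_eval_mv_eval']
  rfl

theorem sp_natDegree {n : ℕ} (w : Fin n → ℂ) (f : MvPolynomial (Fin (n + 1)) ℂ) :
    (sp w f).natDegree ≤ f.totalDegree := by
  show (Polynomial.map (eval w) (finSuccEquiv ℂ n f)).natDegree ≤ _
  refine Polynomial.natDegree_map_le.trans ?_
  rw [natDegree_finSuccEquiv]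
  exact degreeOf_le_totalDegree f 0

end MP60829e.SE
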