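import Mathlib
import Pool.Agent.Lib.MP_60829e_nt.SE.IndDefs
import Pool.Agent.Lib.MP_60829e_nt.SE.IndSp

/-! Good points. -/

open Finset MvPolynomial Module

namespace MP60829e.SE

private theorem IndGood_nat {A B : ℕ} (h : (A : ℝ) * Real.log 3 = B * Real.log 2) : A = 0 := by
  have h1 : Real.log ((3 : ℝ) ^ A) = Real.log ((2 : ℝ) ^ B) := by
    rw [Real.log_pow, Real.log_pow, h]
  have h2 : (3 : ℝ) ^ A = (2 : ℝ) ^ B :=
    Real.log_injOn_pos (Set.mem_Ioi.2 (by positivity)) (Set.mem_Ioi.2 (by positivity)) h1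
  have h3 : 3 ^ A = 2 ^ B := by exact_mod_cast h2
  have h4 : Nat.Coprime (3 ^ A) (2 ^ B) := Nat.Coprime.pow _ _ (by norm_num)
  rw [← h3, Nat.coprime_self] at h4
  rcases Nat.pow_eq_one.1 h4 with h5 | h5
  · omega
  · exact h5

private theorem IndGood_log23 {r s : ℚ} (h : (r : ℝ) * Real.log 3 = s * Real.log 2) : r = 0 := by
  have l2 : 0 < Real.log 2 := Real.log_pos (by norm_num)
  have l3 : 0 < Real.log 3 := Real.log_pos (by norm_num)
  have hr : (r : ℝ) = r.num / r.den := by exact_mod_cast (Rat.num_div_den r).symm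
  have hs : (s : ℝ) = s.num / s.den := by exact_mod_cast (Rat.num_div_den s).symm
  have dr : (0 : ℝ) < r.den := by exact_mod_cast r.den_pos
  have ds : (0 : ℝ) < s.den := by exact_mod_cast s.den_pos
  have h1 : ((r.num * s.den : ℤ) : ℝ) * Real.log 3 = ((s.num * r.den : ℤ) : ℝ) * Real.log 2 := by
    rw [hr, hs] at h
    push_cast
    field_simp at h
    linarith
  have h2 : ((r.num * s.den : ℤ).natAbs : ℝ) * Real.log 3 =
      ((s.num * r.den : ℤ).natAbs : ℝ) * Real.log 2 := by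
    have h3 := congrArg abs h1
    rw [abs_mul, abs_mul, abs_of_pos l2, abs_of_pos l3] at h3
    rw [Nat.cast_natAbs, Nat.cast_natAbs]
    push_cast at h3 ⊢
    exact h3
  have h3 := IndGood_nat h2
  rw [Int.natAbs_eq_zero, mul_eq_zero] at h3
  rcases h3 with h3 | h3
  · exact Rat.num_eq_zero.1 h3
  · exact absurd h3 (by exact_mod_cast s.den_pos.ne')

private theorem IndGood_mulC {n : ℕ} (c : ℂ) (g : MvPolynomial (Fin n) ℂ) :
    mulC n c g = C c * g := by
  change c • g = C c * g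
  rw [smul_eq_C_mul]

private theorem IndGood_coeff_triv {n : ℕ} (a : ℂ) (r : Fin n → ℚ) (i : Fin n) :
    coeff (Finsupp.single i 1) (C a + ∑ j, C (r j : ℂ) * X j : MvPolynomial (Fin n) ℂ) = r i := by
  classical
  rw [coeff_add, coeff_C, coeff_sum]
  rw [if_neg (by
    intro h
    have := DFunLike.congr_fun h i
    simp at this), zero_add]
  rw [Finset.sum_eq_single i]
  · rw [coeff_C_mul, coeff_X]
    simp
  · intro j _ hj
    rw [coeff_C_mul, coeff_X, if_neg, mul_zero]
    intro h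
    exact hj ((Finsupp.single_left_inj one_ne_zero).1 h)
  · intro h
    exact absurd (Finset.mem_univ i) h

private theorem IndGood_rat_mul {q : ℚ} {x : ℝ} (h : ((x : ℝ) : ℂ) ∈ Lg) :
    ((x : ℝ) : ℂ) * (q : ℂ) ∈ Lg := by
  have := Lg.smul_mem q h
  rwa [Rat.smul_def, mul_comm] at this

/-- The value of a coefficient at a good point is rational only if the coefficient is constant.
PROOF. `log 2 * g` and `log 3 * g` are elements of `W` whose values `q log 2`, `q log 3` are in `Lg`,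
so they are trivial (the point is good for `W`):
`log 2 * g = a + ∑ r i X i`, `log 3 * g = a' + ∑ r' i X i`, so `r i / log 2 = r' i / log 3` with
`r i, r' i` rational, and `log 2 / log 3` is irrational (`2 ^ m ≠ 3 ^ n`), so `r i = 0`. -/
theorem const_of_good {n : ℕ} (W : Submodule ℚ (MvPolynomial (Fin n) ℂ)) (b : Fin n → ℕ)
    (hgood : ∀ f ∈ W, eval (lg b) f ∈ Lg → TrivN f) (g : MvPolynomial (Fin n) ℂ)
    (h2 : mulC n ((Real.log 2 : ℝ) : ℂ) g ∈ W) (h3 : mulC n ((Real.log 3 : ℝ) : ℂ) g ∈ W) (q : ℚ)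
    (hq : eval (lg b) g = q) : g = C (q : ℂ) := by
  have l2 : Real.log 2 ≠ 0 := (Real.log_pos (by norm_num)).ne'
  have l3 : Real.log 3 ≠ 0 := (Real.log_pos (by norm_num)).ne'
  have m2 : ((Real.log 2 : ℝ) : ℂ) ∈ Lg := by simpa using log_mem_Lg 2
  have m3 : ((Real.log 3 : ℝ) : ℂ) ∈ Lg := by simpa using log_mem_Lg 3
  obtain ⟨a, r, hr⟩ := hgood _ h2 (by
    rw [IndGood_mulC, map_mul, eval_C, hq]
    exact IndGood_rat_mul m2)
  obtain ⟨a', r', hr'⟩ := hgood _ h3 (by
    rw [IndGood_mulC, map_mul, eval_C, hq]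
    exact IndGood_rat_mul m3)
  rw [IndGood_mulC] at hr hr'
  have hri : ∀ i, r i = 0 := by
    intro i
    have e1 := congrArg (coeff (Finsupp.single i 1)) hr
    have e2 := congrArg (coeff (Finsupp.single i 1)) hr'
    rw [coeff_C_mul, IndGood_coeff_triv] at e1 e2
    have e3 : (r i : ℂ) * ((Real.log 3 : ℝ) : ℂ) = (r' i : ℂ) * ((Real.log 2 : ℝ) : ℂ) := by
      rw [← e1, ← e2]
      ring
    apply IndGood_log23 (s := r' i)
    exact_mod_cast e3
  have hg : C ((Real.log 2 : ℝ) : ℂ) * g = C a := by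
    rw [hr]
    simp [hri]
  have l2' : ((Real.log 2 : ℝ) : ℂ) ≠ 0 := by exact_mod_cast l2
  have hg2 : g = C (a / ((Real.log 2 : ℝ) : ℂ)) := by
    have h1 : C ((Real.log 2 : ℝ) : ℂ) * g =
        C ((Real.log 2 : ℝ) : ℂ) * C (a / ((Real.log 2 : ℝ) : ℂ)) := by
      rw [hg, ← C_mul, mul_div_cancel₀ _ l2']
    exact mul_left_cancel₀ ((map_ne_zero_iff _ (C_injective _ _)).2 l2') h1
  rw [hg2, eval_C] at hq
  rw [hg2, hq]

/-- PROOF. Let `f ∈ V` with `eval (lg b) f ∈ Lg`. As `b 0` is not bad for `V.map (sp w)`,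
`w = lg (Fin.tail b)`, `sp w f = a + r X` (`sp_eval`). So `eval w (cf n k f) = 0` for `2 ≤ k`, and
`= r` for `k = 1`, hence by `const_of_good` `cf n k f = 0` for `2 ≤ k ≤ D` and `cf n 1 f = C r`
(`cf n k f = 0` for `k > D` by the degree; if `D = 0` also for `k = 1`, and `r = 0`). Moreover
`eval w (cf n 0 f) = eval (lg b) f - r log (b 0) ∈ Lg`, so `cf n 0 f` is trivial. So `f` is
trivial. -/
theorem good_step {n D : ℕ} (V : Submodule ℚ (MvPolynomial (Fin (n + 1)) ℂ))
    (hD : ∀ f ∈ V, f.totalDegree ≤ D) (b : Fin (n + 1) → ℕ)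
    (h1 : ∀ f ∈ derV V D, eval (lg (Fin.tail b)) f ∈ Lg → TrivN f)
    (h2 : b 0 ∉ Bad (V.map (sp (lg (Fin.tail b))))) :
    ∀ f ∈ V, eval (lg b) f ∈ Lg → TrivN f := by
  intro f hf hev
  set w := lg (Fin.tail b) with hw
  have htriv : Triv (sp w f) := by
    by_contra hcon
    apply h2
    refine ⟨sp w f, Submodule.mem_map_of_mem hf, ?_, hcon⟩
    rw [hw, sp_eval]
    exact hev
  obtain ⟨a, r, hsp⟩ := htriv
  have hev2 : eval (lg b) f = a + r * ((Real.log (b 0) : ℝ) : ℂ) := by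
    rw [← sp_eval, ← hw, hsp]
    simp
  have hc : ∀ k, eval w (cf n k f) = (Polynomial.C a + Polynomial.C (r : ℂ) * Polynomial.X :
      Polynomial ℂ).coeff k := by
    intro k
    rw [← sp_coeff, hsp]
  have hbig : ∀ k, D < k → cf n k f = 0 := by
    intro k hk
    change (finSuccEquiv ℂ n f).coeff k = 0
    apply Polynomial.coeff_eq_zero_of_natDegree_lt
    rw [natDegree_finSuccEquiv]
    exact lt_of_le_of_lt ((degreeOf_le_totalDegree f 0).trans (hD f hf)) hk
  have hmem2 : ∀ k, 1 ≤ k → k ≤ D → mulC n ((Real.log 2 : ℝ) : ℂ) (cf n k f) ∈ derV V D := by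
    intro k hk1 hk2
    have h3 : mulC n ((Real.log 2 : ℝ) : ℂ) (cf n k f) ∈
        V.map (mulC n ((Real.log 2 : ℝ) : ℂ) ∘ₗ cf n k) := ⟨f, hf, rfl⟩
    unfold derV
    apply Submodule.mem_sup_right
    refine Submodule.mem_iSup_of_mem k ?_
    exact Submodule.mem_iSup_of_mem (Finset.mem_Icc.2 ⟨hk1, hk2⟩) (Submodule.mem_sup_left h3)
  have hmem3 : ∀ k, 1 ≤ k → k ≤ D → mulC n ((Real.log 3 : ℝ) : ℂ) (cf n k f) ∈ derV V D := by
    intro k hk1 hk2
    have h3 : mulC n ((Real.log 3 : ℝ) : ℂ) (cf n k f) ∈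
        V.map (mulC n ((Real.log 3 : ℝ) : ℂ) ∘ₗ cf n k) := ⟨f, hf, rfl⟩
    unfold derV
    apply Submodule.mem_sup_right
    refine Submodule.mem_iSup_of_mem k ?_
    exact Submodule.mem_iSup_of_mem (Finset.mem_Icc.2 ⟨hk1, hk2⟩) (Submodule.mem_sup_right h3)
  have hk2 : ∀ k, 2 ≤ k → cf n k f = 0 := by
    intro k hk
    rcases lt_or_ge D k with h | h
    · exact hbig k h
    · have := const_of_good (derV V D) (Fin.tail b) h1 (cf n k f) (hmem2 k (by omega) h)
        (hmem3 k (by omega) h) 0 (by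
          rw [hc k]
          simp only [Polynomial.coeff_add, Polynomial.coeff_C_mul, Polynomial.coeff_X,
            Polynomial.coeff_C]
          rw [if_neg (by omega), if_neg (by omega)]
          simp)
      rw [this]
      simp
  have hk1 : cf n 1 f = C (r : ℂ) := by
    have e1 : eval w (cf n 1 f) = r := by
      rw [hc 1]
      simp [Polynomial.coeff_C]
    rcases Nat.eq_zero_or_pos D with h | h
    · have h0 : cf n 1 f = 0 := hbig 1 (by omega)
      rw [h0, map_zero] at e1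
      rw [h0, ← e1, C_0]
    · exact const_of_good (derV V D) (Fin.tail b) h1 (cf n 1 f) (hmem2 1 le_rfl h)
        (hmem3 1 le_rfl h) r e1
  have hk0 : TrivN (cf n 0 f) := by
    apply h1
    · unfold derV
      exact Submodule.mem_sup_left ⟨f, hf, rfl⟩
    · rw [hc 0]
      have e1 : (Polynomial.C a + Polynomial.C (r : ℂ) * Polynomial.X : Polynomial ℂ).coeff 0 =
          eval (lg b) f - ((Real.log (b 0) : ℝ) : ℂ) * r := by
        rw [hev2]
        simp
        ring
      rw [e1]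
      exact Lg.sub_mem hev (IndGood_rat_mul (log_mem_Lg (b 0)))
  obtain ⟨a0, r0, h0⟩ := hk0
  refine ⟨a0, Fin.cons r r0, ?_⟩
  apply (finSuccEquiv ℂ n).injective
  have e1 : finSuccEquiv ℂ n f = Polynomial.C (cf n 0 f) + Polynomial.C (cf n 1 f) *
      Polynomial.X := by
    ext1 k
    simp only [Polynomial.coeff_add, Polynomial.coeff_C_mul, Polynomial.coeff_X,
      Polynomial.coeff_C]
    rcases k with _ | _ | k
    · simp
      rfl
    · simp
      rfl
    · rw [if_neg (by omega), if_neg (by omega), mul_zero, add_zero]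
      exact hk2 (k + 1 + 1) (by omega)
  rw [e1, hk1, h0, Fin.sum_univ_succ]
  simp only [Fin.cons_zero, Fin.cons_succ, map_add, map_sum, map_mul, finSuccEquiv_X_zero,
    finSuccEquiv_X_succ]
  have e2 : ∀ z : ℂ, finSuccEquiv ℂ n (C z) = Polynomial.C (C z) := by
    intro z
    rw [finSuccEquiv_apply]
    simp
  simp only [e2]
  ring

end MP60829e.SE
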