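import Mathlib
import Pool.Agent.Lib.MP_60829e_nt.SE.Ind

/-! The final theorem: polynomials with coefficients in a finite-dimensional `ℚ`-space `A`, and all
points `y i` of `q i * log (b i) + Λ`. -/

open Module MvPolynomial

namespace MP60829e.SE

private theorem finrank_mul (A B : Submodule ℚ ℂ) [FiniteDimensional ℚ A] [FiniteDimensional ℚ B] :
    FiniteDimensional ℚ (A * B : Submodule ℚ ℂ) ∧
      finrank ℚ (A * B : Submodule ℚ ℂ) ≤ finrank ℚ A * finrank ℚ B := by
  have h1 := Submodule.mulMap_range A B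
  constructor
  · rw [← h1]; infer_instance
  · rw [← h1, ← finrank_tensorProduct]
    exact LinearMap.finrank_range_le _

private theorem finrank_pow' (A : Submodule ℚ ℂ) [FiniteDimensional ℚ A] (d : ℕ) :
    FiniteDimensional ℚ (A ^ d : Submodule ℚ ℂ) ∧
      finrank ℚ (A ^ d : Submodule ℚ ℂ) ≤ finrank ℚ A ^ d := by
  induction d with
  | zero =>
    rw [pow_zero, pow_zero, Submodule.one_eq_span]
    refine ⟨FiniteDimensional.span_of_finite ℚ (Set.finite_singleton _), ?_⟩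
    exact (finrank_span_singleton (K := ℚ) (one_ne_zero : (1 : ℂ) ≠ 0)).le
  | succ d ih =>
    obtain ⟨h1, h2⟩ := ih
    obtain ⟨h3, h4⟩ := finrank_mul (A ^ d) A
    rw [pow_succ, pow_succ]
    exact ⟨h3, h4.trans (Nat.mul_le_mul_right _ h2)⟩

/-- The polynomials of degree at most `D` with coefficients in `A`. -/
noncomputable def PA (n D : ℕ) (A : Submodule ℚ ℂ) : Submodule ℚ (MvPolynomial (Fin n) ℂ) :=
  (restrictTotalDegree (Fin n) ℂ D).restrictScalars ℚ ⊓ coeffsIn (Fin n) A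

theorem mem_PA {n D : ℕ} {A : Submodule ℚ ℂ} {f : MvPolynomial (Fin n) ℂ} :
    f ∈ PA n D A ↔ f.totalDegree ≤ D ∧ ∀ m, f.coeff m ∈ A := by
  rw [PA, Submodule.mem_inf, Submodule.restrictScalars_mem, mem_restrictTotalDegree, mem_coeffsIn]

/-- the number of exponents of degree at most `D` -/
noncomputable def nexp (n D : ℕ) : ℕ := (Finsupp.finite_of_degree_le (σ := Fin n) D).toFinset.card

theorem finrank_PA (n D : ℕ) (A : Submodule ℚ ℂ) [FiniteDimensional ℚ A] :
    FiniteDimensional ℚ (PA n D A) ∧ finrank ℚ (PA n D A) ≤ nexp n D * finrank ℚ A := by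
  classical
  set S := (Finsupp.finite_of_degree_le (σ := Fin n) D).toFinset with hS
  let φ : PA n D A →ₗ[ℚ] (S → A) :=
    { toFun := fun f m => ⟨(f : MvPolynomial (Fin n) ℂ).coeff m, (mem_PA.mp f.2).2 m⟩
      map_add' := by
        intro f g
        funext m
        apply Subtype.ext
        simp
      map_smul' := by
        intro q f
        funext m
        apply Subtype.ext
        simp }
  have hφ : Function.Injective φ := by
    rw [← LinearMap.ker_eq_bot, LinearMap.ker_eq_bot']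
    intro f hf
    apply Subtype.ext
    ext m
    rw [Submodule.coe_zero, coeff_zero]
    by_cases hm : m ∈ S
    · have h1 := congrFun hf ⟨m, hm⟩
      exact congrArg Subtype.val h1
    · by_contra hne
      have h2 : m ∈ (f : MvPolynomial (Fin n) ℂ).support := mem_support_iff.mpr hne
      have h3 := (le_totalDegree h2).trans (mem_PA.mp f.2).1
      apply hm
      rw [hS, Set.Finite.mem_toFinset]
      exact h3
  constructor
  · exact FiniteDimensional.of_injective φ hφ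
  · have h1 := LinearMap.finrank_le_finrank_of_injective hφ
    rw [finrank_pi_fintype] at h1
    simpa [nexp, ← hS] using h1

variable {n : ℕ}

/-- The substitution `X i ↦ q i X i + c i`. -/
noncomputable def subs (q c : Fin n → ℂ) : MvPolynomial (Fin n) ℂ →ₐ[ℂ] MvPolynomial (Fin n) ℂ :=
  aeval fun i => C (q i) * X i + C (c i)

theorem eval_subs (q c x : Fin n → ℂ) (f : MvPolynomial (Fin n) ℂ) :
    eval x (subs q c f) = eval (fun i => q i * x i + c i) f := by
  induction f using MvPolynomial.induction_on with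
  | C a => simp [subs]
  | add p r hp hr => rw [map_add, map_add, map_add, hp, hr]
  | mul_X p i hp =>
    rw [map_mul, map_mul, map_mul, hp, eval_X]
    congr 1
    simp [subs]

theorem subs_subs (q c : Fin n → ℂ) (hq : ∀ i, q i ≠ 0) (f : MvPolynomial (Fin n) ℂ) :
    subs (fun i => (q i)⁻¹) (fun i => - ((q i)⁻¹ * c i)) (subs q c f) = f := by
  have h1 : (subs (fun i => (q i)⁻¹) (fun i => - ((q i)⁻¹ * c i))).comp (subs q c) =
      AlgHom.id ℂ (MvPolynomial (Fin n) ℂ) := by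
    apply MvPolynomial.algHom_ext
    intro i
    simp only [AlgHom.comp_apply, AlgHom.id_apply, subs, aeval_X, map_add, map_mul, aeval_C,
      algebraMap_eq]
    rw [mul_add, ← mul_assoc, ← C_mul, ← C_mul, mul_inv_cancel₀ (hq i), C_1, one_mul, mul_neg,
      ← mul_assoc, mul_inv_cancel₀ (hq i), one_mul, C_neg]
    ring
  exact congrArg (fun φ => φ f) h1

theorem subs_mem {D : ℕ} {A Λ : Submodule ℚ ℂ} (q : Fin n → ℚ) (c : Fin n → ℂ)
    (hc : ∀ i, c i ∈ Λ) {f : MvPolynomial (Fin n) ℂ} (hf : f ∈ PA n D A) :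
    subs (fun i => (q i : ℂ)) c f ∈ PA n D (A * (1 ⊔ Λ) ^ D) := by
  classical
  rw [mem_PA] at hf
  obtain ⟨hfD, hfA⟩ := hf
  have hexp : subs (fun i => (q i : ℂ)) c f =
      ∑ m ∈ f.support, C (f.coeff m) * ∏ i, (C (q i : ℂ) * X i + C (c i)) ^ m i := by
    rw [subs, aeval_def, eval₂_eq']
    rfl
  have hlin : ∀ i, C (q i : ℂ) * X i + C (c i) ∈ coeffsIn (Fin n) ((1 : Submodule ℚ ℂ) ⊔ Λ) := by
    intro i
    refine Submodule.add_mem _ ?_ ?_
    · rw [mul_X_mem_coeffsIn, C_mem_coeffsIn]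
      apply Submodule.mem_sup_left
      rw [Submodule.mem_one]
      exact ⟨q i, rfl⟩
    · rw [C_mem_coeffsIn]
      exact Submodule.mem_sup_right (hc i)
  have hone : (1 : Submodule ℚ ℂ) ≤ 1 ⊔ Λ := le_sup_left
  have hpow : ∀ (P : Submodule ℚ ℂ) (g : MvPolynomial (Fin n) ℂ), g ∈ coeffsIn (Fin n) P →
      ∀ k : ℕ, g ^ k ∈ coeffsIn (Fin n) (P ^ k) := by
    intro P g hg k
    induction k with
    | zero =>
      rw [pow_zero, pow_zero, one_coeffsIn]
      exact Submodule.one_le.mp le_rfl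
    | succ k ih =>
      rw [pow_succ, pow_succ, coeffsIn_mul]
      exact Submodule.mul_mem_mul ih hg
  have hprod : ∀ m ∈ f.support, ∏ i, (C (q i : ℂ) * X i + C (c i)) ^ m i ∈
      coeffsIn (Fin n) (((1 : Submodule ℚ ℂ) ⊔ Λ) ^ D) := by
    intro m hm
    have h1 : ∀ s : Finset (Fin n), ∏ i ∈ s, (C (q i : ℂ) * X i + C (c i)) ^ m i ∈
        coeffsIn (Fin n) (((1 : Submodule ℚ ℂ) ⊔ Λ) ^ (∑ i ∈ s, m i)) := by
      intro s
      induction s using Finset.induction with
      | empty =>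
        rw [Finset.prod_empty, Finset.sum_empty, pow_zero, one_coeffsIn]
        exact Submodule.one_le.mp le_rfl
      | insert j s hj ih =>
        rw [Finset.prod_insert hj, Finset.sum_insert hj, pow_add, coeffsIn_mul]
        exact Submodule.mul_mem_mul (hpow _ _ (hlin j) _) ih
    have h2 : ∑ i, m i ≤ D := by
      have h3 := (le_totalDegree hm).trans hfD
      rwa [Finsupp.sum_fintype _ _ (fun _ => rfl)] at h3
    intro i
    exact pow_le_pow_right' hone h2 (h1 Finset.univ i)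
  rw [mem_PA]
  constructor
  · rw [hexp]
    refine totalDegree_finsetSum_le ?_
    intro m hm
    refine (totalDegree_mul _ _).trans ?_
    rw [totalDegree_C, zero_add]
    refine (totalDegree_finsetProd _ _).trans ?_
    have h2 : ∑ i, m i ≤ D := by
      have h3 := (le_totalDegree hm).trans hfD
      rwa [Finsupp.sum_fintype _ _ (fun _ => rfl)] at h3
    refine le_trans (Finset.sum_le_sum fun i _ => ?_) h2
    refine (totalDegree_pow _ _).trans ?_
    have h4 : (C (q i : ℂ) * X i + C (c i) : MvPolynomial (Fin n) ℂ).totalDegree ≤ 1 := by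
      refine (totalDegree_add _ _).trans (max_le ?_ ?_)
      · refine (totalDegree_mul _ _).trans ?_
        rw [totalDegree_C, totalDegree_X]
      · rw [totalDegree_C]; omega
    calc m i * _ ≤ m i * 1 := Nat.mul_le_mul_left _ h4
      _ = m i := mul_one _
  · rw [← mem_coeffsIn (σ := Fin n) (M := A * (1 ⊔ Λ) ^ D), coeffsIn_mul, hexp]
    refine Submodule.sum_mem _ fun m hm => ?_
    exact Submodule.mul_mem_mul (C_mem_coeffsIn.mpr (hfA m)) (hprod m hm)

/-- **Theorem Y.** -/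
theorem final' (n D κ : ℕ) : ∃ C' : ℕ, ∀ (A Λ : Submodule ℚ ℂ), FiniteDimensional ℚ A →
    FiniteDimensional ℚ Λ → finrank ℚ A ≤ κ → finrank ℚ Λ ≤ κ → ∀ B : ℕ, 16 ≤ B →
      ({b : Fin n → ℕ | (∀ i, 1 ≤ b i ∧ b i ≤ B) ∧
        ∃ (y : Fin n → ℂ) (f : MvPolynomial (Fin n) ℂ),
          (∀ i, ∃ q : ℚ, q ≠ 0 ∧ y i - q * ((Real.log (b i) : ℝ) : ℂ) ∈ Λ) ∧
          f.totalDegree ≤ D ∧ (∀ m, f.coeff m ∈ A) ∧
          IsAlgebraic ℚ (Complex.exp (eval y f)) ∧
          ¬ ∃ (c : ℂ) (r : Fin n → ℚ), f = C c + ∑ i, C (r i : ℂ) * X i}.ncard : ℝ) ≤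
        C' * Real.log (Real.log B) ^ C' / Real.log B * B ^ n := by
  classical
  obtain ⟨C', hC'⟩ := main D n (nexp n D * (κ * (1 + κ) ^ D))
  refine ⟨C', fun A Λ hA hΛ hAκ hΛκ B hB => ?_⟩
  have h1fd : FiniteDimensional ℚ (1 : Submodule ℚ ℂ) := by
    rw [Submodule.one_eq_span]
    exact FiniteDimensional.span_of_finite ℚ (Set.finite_singleton _)
  have h1fr : finrank ℚ (1 : Submodule ℚ ℂ) ≤ 1 := by
    rw [Submodule.one_eq_span]
    exact (finrank_span_singleton (K := ℚ) (one_ne_zero : (1 : ℂ) ≠ 0)).le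
  have hPfd : FiniteDimensional ℚ ((1 : Submodule ℚ ℂ) ⊔ Λ : Submodule ℚ ℂ) := inferInstance
  have hPfr : finrank ℚ ((1 : Submodule ℚ ℂ) ⊔ Λ : Submodule ℚ ℂ) ≤ 1 + κ :=
    (Submodule.finrank_add_le_finrank_add_finrank _ _).trans (add_le_add h1fr hΛκ)
  obtain ⟨hPD, hPDr⟩ := finrank_pow' ((1 : Submodule ℚ ℂ) ⊔ Λ) D
  obtain ⟨hAP, hAPr⟩ := finrank_mul A (((1 : Submodule ℚ ℂ) ⊔ Λ) ^ D)
  obtain ⟨hV, hVr⟩ := finrank_PA n D (A * ((1 : Submodule ℚ ℂ) ⊔ Λ) ^ D)
  have hV' : finrank ℚ (PA n D (A * ((1 : Submodule ℚ ℂ) ⊔ Λ) ^ D)) ≤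
      nexp n D * (κ * (1 + κ) ^ D) := by
    refine hVr.trans (Nat.mul_le_mul_left _ (hAPr.trans ?_))
    exact Nat.mul_le_mul hAκ (hPDr.trans (Nat.pow_le_pow_left hPfr _))
  have h2 := hC' (PA n D (A * ((1 : Submodule ℚ ℂ) ⊔ Λ) ^ D)) hV hV'
    (fun f hf => (mem_PA.mp hf).1) B hB
  refine le_trans ?_ h2
  have hfin : (BadN (PA n D (A * ((1 : Submodule ℚ ℂ) ⊔ Λ) ^ D)) B).Finite := by
    refine Set.Finite.subset (Finset.finite_toSet (Fintype.piFinset
      (fun _ : Fin n => Finset.Icc 1 B))) ?_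
    intro b hb
    rw [Finset.mem_coe, Fintype.mem_piFinset]
    intro i
    rw [Finset.mem_Icc]
    exact hb.1 i
  have h3 : ∀ S : Set (Fin n → ℕ), S ⊆ BadN (PA n D (A * ((1 : Submodule ℚ ℂ) ⊔ Λ) ^ D)) B →
      (S.ncard : ℝ) ≤ (BadN (PA n D (A * ((1 : Submodule ℚ ℂ) ⊔ Λ) ^ D)) B).ncard := by
    intro S hS
    exact_mod_cast Set.ncard_le_ncard hS hfin
  apply h3
  rintro b ⟨hb, y, f, hy, hfD, hfA, hfe, hft⟩
  choose q hq0 hq using hy
  refine ⟨hb, subs (fun i => (q i : ℂ)) (fun i => y i - q i * ((Real.log (b i) : ℝ) : ℂ)) f,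
    subs_mem q _ hq (mem_PA.mpr ⟨hfD, hfA⟩), ?_, ?_⟩
  · have h5 : (fun i => (q i : ℂ) * lg b i + (y i - q i * ((Real.log (b i) : ℝ) : ℂ))) = y := by
      funext i
      simp [lg]
    rw [mem_Lg, eval_subs, h5]
    exact hfe
  · rintro ⟨a, r, har⟩
    apply hft
    have h4 := subs_subs (fun i => (q i : ℂ)) (fun i => y i - q i * ((Real.log (b i) : ℝ) : ℂ))
      (fun i => by exact_mod_cast hq0 i) f
    rw [har] at h4
    generalize hc : (fun i => y i - q i * ((Real.log (b i) : ℝ) : ℂ)) = c at h4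
    have hci : ∀ i, y i - q i * ((Real.log (b i) : ℝ) : ℂ) = c i := fun i => congrFun hc i
    simp only [hci] at h4
    refine ⟨a + ∑ i, (r i : ℂ) * (-((q i : ℂ)⁻¹ * c i)), fun i => r i * (q i)⁻¹, ?_⟩
    rw [← h4]
    simp only [subs, map_add, map_sum, map_mul, aeval_C, aeval_X, algebraMap_eq]
    rw [add_assoc, ← Finset.sum_add_distrib]
    congr 1
    refine Finset.sum_congr rfl fun i _ => ?_
    push_cast
    simp only [C_mul, C_neg]
    ring

end MP60829e.SE
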