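import Mathlib
import Pool.Agent.Lib.MP_60829e_nt.SE.Ind

/-! The theorem in the form of the hand-in. -/

open Module

namespace MP60829e.SE

/-- PROOF: `main D n κ` for `V = span (range g)`, `finrank V ≤ κ` (`finrank_range_le_card`). -/
theorem final (n D κ : ℕ) : ∃ C : ℕ, ∀ g : Fin κ → MvPolynomial (Fin n) ℂ,
    (∀ s, (g s).totalDegree ≤ D) → ∀ B : ℕ, 16 ≤ B →
      ({b : Fin n → ℕ | (∀ i, 1 ≤ b i ∧ b i ≤ B) ∧ ∃ f ∈ Submodule.span ℚ (Set.range g),
        IsAlgebraic ℚ (Complex.exp
          (MvPolynomial.eval (fun i => ((Real.log (b i) : ℝ) : ℂ)) f)) ∧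
        ¬ ∃ (a : ℂ) (r : Fin n → ℚ), f = MvPolynomial.C a +
          ∑ i, MvPolynomial.C (r i : ℂ) * MvPolynomial.X i}.ncard : ℝ) ≤
        C * Real.log (Real.log B) ^ C / Real.log B * B ^ n := by
  obtain ⟨C, hC⟩ := main D n κ
  refine ⟨C, fun g hg B hB => ?_⟩
  have hfd : FiniteDimensional ℚ (Submodule.span ℚ (Set.range g)) :=
    FiniteDimensional.span_of_finite ℚ (Set.finite_range g)
  have hfr : finrank ℚ (Submodule.span ℚ (Set.range g)) ≤ κ := by
    have := finrank_range_le_card (R := ℚ) g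
    rwa [Fintype.card_fin] at this
  refine hC (Submodule.span ℚ (Set.range g)) hfd hfr ?_ B hB
  intro f hf
  induction hf using Submodule.span_induction with
  | mem x hx => obtain ⟨s, rfl⟩ := hx; exact hg s
  | zero => simp
  | add x y _ _ hx hy => exact (MvPolynomial.totalDegree_add x y).trans (max_le hx hy)
  | smul q x _ hx =>
    have h1 : q • x = MvPolynomial.C (q : ℂ) * x := by
      rw [Algebra.smul_def]; rfl
    rw [h1]
    refine (MvPolynomial.totalDegree_mul _ _).trans ?_
    simpa using hx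

end MP60829e.SE
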